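import Pool.Agent.H42CR.Snd

/-!
Completeness: words `f^(2^k) x₁ f^(2^k+1) x₂ ... x_N f^(2^k+N)` with Dyck letters reduce to `Y`.
-/

namespace Pool.Agent.H42CR

open Relation Sy

theorem red_rule {l r : List Sy} (h : Rule l r) (x y : List Sy) :
    Red sys (x ++ l ++ y) (x ++ r ++ y) :=
  ReflTransGen.single ⟨x, y, l, r, h, rfl, rfl⟩

theorem red_ctx {u v : List Sy} (h : Red sys u v) (x y : List Sy) :
    Red sys (x ++ u ++ y) (x ++ v ++ y) := by
  induction h with
  | refl => exact ReflTransGen.refl
  | tail _ hs ih =>
    refine ReflTransGen.tail ih ?_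
    obtain ⟨x', y', l, r, hlr, rfl, rfl⟩ := hs
    exact ⟨x ++ x', y' ++ y, l, r, hlr, by simp, by simp⟩

theorem red_left {u v : List Sy} (h : Red sys u v) (x : List Sy) :
    Red sys (x ++ u) (x ++ v) := by
  simpa using red_ctx h x []

theorem rfl' {u : List Sy} : Red sys u u := ReflTransGen.refl

theorem tr' {u v w : List Sy} (h₁ : Red sys u v) (h₂ : Red sys v w) : Red sys u w :=
  ReflTransGen.trans h₁ h₂

theorem red_cons {u v : List Sy} (h : Red sys u v) (a : Sy) :
    Red sys (a :: u) (a :: v) := red_left h [a]

/-- Tail of a word: blocks after the first one, with block lengths following the flags. -/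
def tl (τ : Bool) : ℕ → List (Bool × (Bool × Bool)) → List Sy
  | _, [] => [dol τ]
  | q, (c, x) :: cs =>
    X τ c x :: (List.replicate (q + c.toNat) (f τ) ++ tl τ (q + c.toNat) cs)

/-- Flags after one sweep. -/
def sw : Bool → List (Bool × (Bool × Bool)) → List (Bool × (Bool × Bool))
  | _, [] => []
  | e, (c, x) :: cs => (e && c, x) :: sw (xor e c) cs

def tot (cs : List (Bool × (Bool × Bool))) : ℕ := (cs.map fun p => p.1.toNat).sum

theorem tot_sw (cs : List (Bool × (Bool × Bool))) : ∀ e : Bool,
    tot (sw e cs) = (e.toNat + tot cs) / 2 := by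
  induction cs with
  | nil => intro e; cases e <;> simp [sw, tot]
  | cons p cs ih =>
    intro e
    obtain ⟨c, x⟩ := p
    have h1 : tot (sw e ((c, x) :: cs)) = (e && c).toNat + tot (sw (xor e c) cs) := by
      simp [sw, tot]
    have h2 : tot ((c, x) :: cs) = c.toNat + tot cs := by simp [tot]
    rw [h1, h2, ih]
    cases e <;> cases c <;> simp <;> omega

theorem sw_snd (cs : List (Bool × (Bool × Bool))) : ∀ e : Bool,
    (sw e cs).map Prod.snd = cs.map Prod.snd := by
  induction cs with
  | nil => intro e; simp [sw]
  | cons p cs ih =>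
    intro e
    obtain ⟨c, x⟩ := p
    simp [sw, ih]

theorem sweep_f (τ e : Bool) (n : ℕ) (y : List Sy) :
    Red sys (R τ e :: (List.replicate (2 * n) (f τ) ++ y))
      (List.replicate n (f (!τ)) ++ R τ e :: y) := by
  induction n with
  | zero => simpa using rfl'
  | succ n ih =>
    have h1 : Red sys (R τ e :: (List.replicate (2 * (n + 1)) (f τ) ++ y))
        (f (!τ) :: R τ e :: (List.replicate (2 * n) (f τ) ++ y)) := by
      have := red_rule (Rule.L1 τ e) [] (List.replicate (2 * n) (f τ) ++ y)
      simpa [mul_add, List.replicate_succ] using this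
    refine tr' h1 ?_
    have := red_cons ih (f (!τ))
    simpa [List.replicate_succ] using this

theorem sweep (τ : Bool) (cs : List (Bool × (Bool × Bool))) : ∀ (e : Bool) (n q : ℕ), 1 ≤ q →
    Red sys (R τ e :: (List.replicate (2 * n + e.toNat) (f τ) ++ tl τ (2 * q + e.toNat) cs))
      (List.replicate n (f (!τ)) ++ tl (!τ) q (sw e cs)) := by
  induction cs with
  | nil =>
    intro e n q hq
    have h1 := sweep_f τ e n (List.replicate e.toNat (f τ) ++ tl τ (2 * q + e.toNat) [])
    rw [← List.append_assoc, ← List.replicate_add] at h1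
    refine tr' h1 ?_
    cases e with
    | false =>
      have := red_rule (Rule.L4 τ) (List.replicate n (f (!τ))) []
      simpa [tl, sw] using this
    | true =>
      have := red_rule (Rule.L5 τ) (List.replicate n (f (!τ))) []
      simpa [tl, sw] using this
  | cons p cs ih =>
    intro e n q hq
    obtain ⟨c, x⟩ := p
    have h1 := sweep_f τ e n (List.replicate e.toNat (f τ) ++ tl τ (2 * q + e.toNat) ((c, x) :: cs))
    rw [← List.append_assoc, ← List.replicate_add] at h1
    refine tr' h1 ?_
    cases e with
    | true =>
      have h2 := red_rule (Rule.L2 τ c x) (List.replicate n (f (!τ)))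
        (List.replicate (2 * q + 1 + c.toNat) (f τ) ++ tl τ (2 * q + 1 + c.toNat) cs)
      have h3 := ih (!c) (q + c.toNat) (q + c.toNat) (by omega)
      have e1 : 2 * (q + c.toNat) + (!c).toNat = 2 * q + 1 + c.toNat := by
        cases c <;> simp <;> omega
      rw [e1] at h3
      have h4 := red_left h3 (List.replicate n (f (!τ)) ++ [X (!τ) c x])
      simp only [tl, sw, Bool.toNat_true, List.replicate_one, Bool.true_and, Bool.true_xor]
      refine tr' ?_ (tr' h4 ?_)
      · simpa using h2
      · simpa using rfl'
    | false =>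
      obtain ⟨q', rfl⟩ : ∃ q', q = q' + 1 := ⟨q - 1, by omega⟩
      have h2 := red_rule (Rule.L3 τ c x) (List.replicate n (f (!τ)))
        (List.replicate (2 * q' + c.toNat) (f τ) ++ tl τ (2 * (q' + 1) + c.toNat) cs)
      have h3 := ih c q' (q' + 1) (by omega)
      have h4 := red_left h3 (List.replicate n (f (!τ)) ++ [X (!τ) false x, f (!τ)])
      simp only [tl, sw, Bool.toNat_false, List.replicate_zero, Bool.false_and, Bool.false_xor,
        Nat.add_zero, List.nil_append]
      have e1 : 2 * (q' + 1) + c.toNat = (2 * q' + c.toNat) + 1 + 1 := by ring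
      refine tr' ?_ (tr' h4 ?_)
      · rw [e1, List.replicate_succ, List.replicate_succ, ← e1]
        simpa using h2
      · rw [List.replicate_succ]
        simpa using rfl'

/-- A full sweep. -/
theorem full (τ : Bool) (cs : List (Bool × (Bool × Bool))) (q : ℕ) (hq : 1 ≤ q) (hcs : cs ≠ []) :
    Red sys (cent :: (List.replicate (2 * q) (f τ) ++ tl τ (2 * q) cs))
      (cent :: (List.replicate q (f (!τ)) ++ tl (!τ) q (sw false cs))) := by
  rcases Nat.lt_or_ge q 2 with h | h
  · obtain rfl : q = 1 := by omega
    obtain ⟨⟨c, x⟩, cs', rfl⟩ := List.exists_cons_of_ne_nil hcs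
    have h2 := red_rule (Rule.S2 τ c x) []
      (List.replicate (c.toNat) (f τ) ++ tl τ (2 + c.toNat) cs')
    have h3 := sweep τ cs' c 0 1 (by omega)
    have h4 := red_left h3 [cent, f (!τ), X (!τ) false x, f (!τ)]
    simp only [tl, sw, Bool.false_and, Bool.false_xor, Bool.toNat_false, Nat.add_zero]
    have e1 : List.replicate (2 * 1 + c.toNat) (f τ) = f τ :: f τ :: List.replicate c.toNat (f τ) := by
      rw [show 2 * 1 + c.toNat = c.toNat + 1 + 1 by ring, List.replicate_succ, List.replicate_succ]
    refine tr' ?_ (tr' h4 ?_)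
    · rw [e1]
      simpa [List.replicate_succ] using h2
    · simpa using rfl'
  · obtain ⟨q', rfl⟩ : ∃ q', q = q' + 2 := ⟨q - 2, by omega⟩
    have h2 := red_rule (Rule.S1 τ) [] (List.replicate (2 * q') (f τ) ++ tl τ (2 * (q' + 2)) cs)
    have h3 := sweep τ cs false q' (q' + 2) (by omega)
    have h4 := red_left h3 [cent, f (!τ), f (!τ)]
    have e1 : List.replicate (2 * (q' + 2)) (f τ)
        = f τ :: f τ :: f τ :: f τ :: List.replicate (2 * q') (f τ) := by
      rw [show 2 * (q' + 2) = 2 * q' + 1 + 1 + 1 + 1 by ring, List.replicate_succ,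
        List.replicate_succ, List.replicate_succ, List.replicate_succ]
    refine tr' ?_ (tr' h4 ?_)
    · rw [e1]
      simpa using h2
    · rw [List.replicate_succ, List.replicate_succ]
      simpa using rfl'

/-- all sweeps -/
theorem sweeps (k : ℕ) : ∀ (τ : Bool) (cs : List (Bool × (Bool × Bool))), cs ≠ [] →
    tot cs < 2 ^ k → ∃ τ', Red sys (cent :: (List.replicate (2 ^ k) (f τ) ++ tl τ (2 ^ k) cs))
      (cent :: (List.replicate 1 (f τ') ++ tl τ' 1 ((cs.map Prod.snd).map fun x => (false, x)))) := by
  induction k with
  | zero =>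
    intro τ cs hcs ht
    refine ⟨τ, ?_⟩
    have h0 : (cs.map Prod.snd).map (fun x => (false, x)) = cs := by
      have ht' : tot cs = 0 := by simpa using ht
      clear ht hcs
      induction cs with
      | nil => rfl
      | cons p cs ih =>
        obtain ⟨c, x⟩ := p
        have h2 : tot ((c, x) :: cs) = c.toNat + tot cs := by simp [tot]
        rw [h2] at ht'
        have hc : c = false := by
          cases c
          · rfl
          · simp at ht'
        subst hc
        simp only [List.map_cons, List.cons.injEq, true_and]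
        exact ih (by simpa using ht')
    rw [h0]
    simpa using rfl'
  | succ k ih =>
    intro τ cs hcs ht
    have h1 := full τ cs (2 ^ k) Nat.one_le_two_pow hcs
    have hne : sw false cs ≠ [] := by
      intro h
      have := congrArg (List.map Prod.snd) h
      rw [sw_snd] at this
      simp at this
      exact hcs this
    obtain ⟨τ', h2⟩ := ih (!τ) (sw false cs) hne (by
      rw [tot_sw]; simp; rw [pow_succ] at ht; omega)
    refine ⟨τ', ?_⟩
    rw [sw_snd] at h2
    rw [pow_succ, mul_comm]
    exact tr' h1 h2

/-- the `D`-phase -/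
theorem dphase (τ : Bool) (xs : List (Bool × Bool)) : ∀ (σ : List Bool),
    dyRun xs σ = some [] →
    Red sys (cent :: ((σ.reverse.map sl) ++ D τ :: tl τ 1 (xs.map fun x => (false, x)))) [Y] := by
  induction xs with
  | nil =>
    intro σ h
    simp only [dyRun, Option.some.injEq] at h
    subst h
    have := red_rule (Rule.D3 τ) [] []
    simpa [tl] using this
  | cons x xs ih =>
    intro σ h
    obtain ⟨o, b⟩ := x
    cases o with
    | true =>
      simp only [dyRun, dy, Option.bind_some] at h
      have h1 := ih (b :: σ) h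
      refine tr' ?_ h1
      have := red_rule (Rule.D1 τ b) (cent :: σ.reverse.map sl)
        (tl τ 1 (xs.map fun x => (false, x)))
      simpa [tl] using this
    | false =>
      cases σ with
      | nil => simp [dyRun, dy] at h
      | cons a σ =>
        simp only [dyRun, dy] at h
        split_ifs at h with hab
        · subst hab
          simp only [Option.bind_some] at h
          have h1 := ih σ h
          refine tr' ?_ h1
          have := red_rule (Rule.D2 τ a) (cent :: σ.reverse.map sl)
            (tl τ 1 (xs.map fun x => (false, x)))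
          simpa [tl] using this
        · simp at h

/-- The input words: tail -/
def mkT : ℕ → List (Bool × Bool) → List Inp
  | _, [] => []
  | q, x :: xs => some x :: (List.replicate (q + 1) none ++ mkT (q + 1) xs)

/-- The input words. -/
def mk (q : ℕ) (xs : List (Bool × Bool)) : List Inp := List.replicate q none ++ mkT q xs

theorem mkT_tl (xs : List (Bool × Bool)) : ∀ q,
    (mkT q xs).map emb ++ [dol false] = tl false q (xs.map fun x => (true, x)) := by
  induction xs with
  | nil => intro q; simp [mkT, tl]
  | cons x xs ih =>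
    intro q
    simp only [mkT, List.map_cons, emb, tl, List.map_append, List.map_replicate, List.cons_append,
      List.append_assoc, ih, Bool.toNat_true]

theorem complete (k : ℕ) (xs : List (Bool × Bool)) (hne : xs ≠ []) (hlen : xs.length < 2 ^ k)
    (hd : dyRun xs [] = some []) : mk (2 ^ k) xs ∈ Lng := by
  show Red sys _ _
  have h0 : [cent] ++ (mk (2 ^ k) xs).map emb ++ [dol false]
      = cent :: (List.replicate (2 ^ k) (f false) ++
        tl false (2 ^ k) (xs.map fun x => (true, x))) := by
    simp [mk, emb, ← mkT_tl]
  rw [h0]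
  obtain ⟨τ', h1⟩ := sweeps k false (xs.map fun x => (true, x)) (by simpa using hne) (by
    simpa [tot, Function.comp_def] using hlen)
  refine tr' h1 ?_
  have e1 : (xs.map fun x => (true, x)).map Prod.snd = xs := by simp [Function.comp_def]
  rw [e1]
  obtain ⟨⟨o, b⟩, xs', rfl⟩ := List.exists_cons_of_ne_nil hne
  cases o with
  | false => simp [dyRun, dy] at hd
  | true =>
    simp only [dyRun, dy, Option.bind_some] at hd
    have h2 := dphase τ' xs' [b] hd
    refine tr' ?_ h2
    have := red_rule (Rule.S3 τ' b) [] (tl τ' 1 (xs'.map fun x => (false, x)))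
    simpa [tl] using this

theorem irred_of {u : List Sy} (h : ∀ l r, Rule l r → ¬ l <:+: u) : Irred sys u := by
  rintro v ⟨x, y, l, r, hlr, hu, -⟩
  exact h l r hlr ⟨x, y, hu.symm⟩

theorem lng_cr : IsChurchRosser Lng := by
  refine ⟨Sy, inferInstance, ⟨emb, emb_inj⟩, sys, [cent], [dol false], Y, sys_finite,
    fun p hp => rule_len hp, sys_confluent, ?_, ?_, ?_, ?_, ?_, ?_, ?_⟩
  · intro a ha
    simp only [List.mem_singleton] at ha
    subst ha
    rintro ⟨x, hx⟩
    cases x <;> simp [emb] at hx
  · intro a ha
    simp only [List.mem_singleton] at ha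
    subst ha
    rintro ⟨x, hx⟩
    cases x <;> simp [emb] at hx
  · rintro ⟨x, hx⟩
    cases x <;> simp [emb] at hx
  · apply irred_of
    intro l r h hl
    have h1 := hl.length_le
    cases h <;> simp at h1
  · apply irred_of
    intro l r h hl
    have h1 := hl.length_le
    cases h <;> simp at h1
  · apply irred_of
    intro l r h hl
    have h1 := hl.length_le
    cases h <;> simp at h1
  · intro w
    exact Iff.rfl

end Pool.Agent.H42CR
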