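import Mathlib

/-!
Definitions for MP_d63846_lc: string-rewriting systems, Church-Rosser languages, and
programmed grammars with appearance checking.
-/

namespace Pool.Agent.H42CR

/-- One rewriting step of the string-rewriting system `R` (a set of rules `(ℓ, r)`). -/
def Step {Γ : Type} (R : Set (List Γ × List Γ)) (u v : List Γ) : Prop :=
  ∃ x y l r, (l, r) ∈ R ∧ u = x ++ l ++ y ∧ v = x ++ r ++ y

/-- The reduction relation `→*` of `R`. -/
def Red {Γ : Type} (R : Set (List Γ × List Γ)) : List Γ → List Γ → Prop :=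
  Relation.ReflTransGen (Step R)

/-- `R` is confluent. -/
def Confluent {Γ : Type} (R : Set (List Γ × List Γ)) : Prop :=
  ∀ u v w, Red R u v → Red R u w → ∃ z, Red R v z ∧ Red R w z

/-- `u` is irreducible modulo `R`. -/
def Irred {Γ : Type} (R : Set (List Γ × List Γ)) (u : List Γ) : Prop :=
  ∀ v, ¬ Step R u v

/-- `L` is a Church-Rosser language over the alphabet `A`: there are a finite alphabet `Γ`
containing `A` (through the injection `ι`), a finite length-reducing confluent system `R` over
`Γ`, irreducible words `t₁`, `t₂` over `Γ ∖ A` and an irreducible letter `Y ∈ Γ ∖ A` such that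
`w ∈ L` iff `t₁ w t₂ →* Y`. -/
def IsChurchRosser {A : Type} (L : Set (List A)) : Prop :=
  ∃ (Γ : Type) (_ : Finite Γ) (ι : A ↪ Γ) (R : Set (List Γ × List Γ))
    (t₁ t₂ : List Γ) (Y : Γ),
    R.Finite ∧ (∀ p ∈ R, p.2.length < p.1.length) ∧ Confluent R ∧
    (∀ a ∈ t₁, a ∉ Set.range ι) ∧ (∀ a ∈ t₂, a ∉ Set.range ι) ∧ Y ∉ Set.range ι ∧
    Irred R t₁ ∧ Irred R t₂ ∧ Irred R [Y] ∧
    ∀ w : List A, Red R (t₁ ++ w.map ι ++ t₂) [Y] ↔ w ∈ L

/-- A programmed grammar with terminal alphabet `T`: `N` is the nonterminal alphabet, `Lab` the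
set of labels of the rules, `S` the axiom; the rule with label `r` is `lhs r → rhs r`, with
success field `succ r` and failure field `fail r`. -/
structure ProgGrammar (T : Type) where
  N : Type
  Lab : Type
  finN : Finite N
  finLab : Finite Lab
  S : N
  lhs : Lab → N
  rhs : Lab → List (N ⊕ T)
  succ : Lab → Set Lab
  fail : Lab → Set Lab

/-- A derivation step of a programmed grammar, with appearance checking. -/
inductive ProgGrammar.Der {T : Type} (G : ProgGrammar T) :
    List (G.N ⊕ T) × G.Lab → List (G.N ⊕ T) × G.Lab → Prop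
  | app (x y : List (G.N ⊕ T)) (r r' : G.Lab) : r' ∈ G.succ r →
      Der G (x ++ [Sum.inl (G.lhs r)] ++ y, r) (x ++ G.rhs r ++ y, r')
  | chk (x : List (G.N ⊕ T)) (r r' : G.Lab) : Sum.inl (G.lhs r) ∉ x → r' ∈ G.fail r →
      Der G (x, r) (x, r')

/-- The language generated by a programmed grammar. -/
def ProgGrammar.lang {T : Type} (G : ProgGrammar T) : Set (List T) :=
  {z | ∃ r r' : G.Lab, Relation.ReflTransGen G.Der ([Sum.inl G.S], r) (z.map Sum.inr, r')}

/-- The grammar has no erasing rules. -/
def ProgGrammar.NonErasing {T : Type} (G : ProgGrammar T) : Prop :=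
  ∀ r, G.rhs r ≠ []

end Pool.Agent.H42CR
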