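import Pool.Agent.H42CR.Tree

/-!
Bracket words following complete binary trees.
-/

namespace Pool.Agent.H42CR

theorem dyRun_append (l₁ l₂ : List (Bool × Bool)) : ∀ σ,
    dyRun (l₁ ++ l₂) σ = (dyRun l₁ σ).bind (dyRun l₂) := by
  induction l₁ with
  | nil => intro σ; simp [dyRun]
  | cons x l ih =>
    intro σ
    simp only [List.cons_append, dyRun]
    cases dy x σ with
    | none => simp
    | some σ' => simp [ih]

theorem dyRun_open (u : List Bool) : ∀ σ,
    dyRun (u.map fun b => (true, b)) σ = some (u.reverse ++ σ) := by
  induction u with
  | nil => intro σ; simp [dyRun]
  | cons b u ih => intro σ; simp [dyRun, dy, ih]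

theorem dyRun_close (u : List Bool) : ∀ σ,
    dyRun (u.map fun b => (false, b)) (u ++ σ) = some σ := by
  induction u with
  | nil => intro σ; simp [dyRun]
  | cons b u ih => intro σ; simp [dyRun, dy, ih]

theorem dyRun_close_inv (c : List Bool) : ∀ (u σ σ' : List Bool), c.length = u.length →
    dyRun (c.map fun b => (false, b)) (u ++ σ) = some σ' → c = u ∧ σ' = σ := by
  induction c with
  | nil =>
    intro u σ σ' hl h
    have : u = [] := by
      apply List.length_eq_zero_iff.mp
      simpa using hl.symm
    subst this
    simp [dyRun] at h
    exact ⟨rfl, h.symm⟩
  | cons b c ih =>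
    intro u σ σ' hl h
    cases u with
    | nil => simp at hl
    | cons a u =>
      simp only [List.map_cons, dyRun, List.cons_append, dy] at h
      split_ifs at h with hab
      · subst hab
        simp only [Option.bind_some] at h
        obtain ⟨h1, h2⟩ := ih u σ σ' (by simpa using hl) h
        exact ⟨by rw [h1], h2⟩
      · simp at h

/-- The sequence of opening (`true`) and closing (`false`) brackets. -/
def shape (m : ℕ) : ℕ → List Bool
  | 0 => []
  | d + 1 => List.replicate m true ++ (shape m d ++ (shape m d ++ List.replicate m false))

/-- The colours. -/
def col (u : List Bool) : ℕ → List Bool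
  | 0 => []
  | d + 1 => u ++ (col u d ++ (col u d ++ u.reverse))

theorem shape_length (m d : ℕ) : (shape m d).length = len m d := by
  induction d with
  | zero => rfl
  | succ d ih => simp [shape, len, ih]

theorem col_length (u : List Bool) (d : ℕ) : (col u d).length = len u.length d := by
  induction d with
  | zero => rfl
  | succ d ih => simp [col, len, ih]

theorem zip_replicate (v : Bool) (y : List Bool) :
    (List.replicate y.length v).zip y = y.map fun b => (v, b) := by
  induction y with
  | nil => simp
  | cons b y ih => simp [List.replicate_succ, ih]

theorem zip_replicate' (v : Bool) (m : ℕ) (y : List Bool) (h : y.length = m) :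
    (List.replicate m v).zip y = y.map fun b => (v, b) := by
  subst h; exact zip_replicate v y

/-- The bracket word. -/
def W (u : List Bool) (d : ℕ) : List (Bool × Bool) := (shape u.length d).zip (col u d)

theorem W_length (u : List Bool) (d : ℕ) : (W u d).length = len u.length d := by
  simp [W, shape_length, col_length]

theorem W_succ (u : List Bool) (d : ℕ) :
    W u (d + 1) = (u.map fun b => (true, b)) ++ (W u d ++ (W u d ++
      (u.reverse.map fun b => (false, b)))) := by
  unfold W
  simp only [shape, col]
  rw [List.zip_append (by simp), List.zip_append (by simp [shape_length, col_length]),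
    List.zip_append (by simp [shape_length, col_length]), zip_replicate,
    zip_replicate' false u.length u.reverse (by simp)]

theorem W_dyck (u : List Bool) (d : ℕ) : ∀ σ, dyRun (W u d) σ = some σ := by
  induction d with
  | zero => intro σ; simp [W, shape, col, dyRun]
  | succ d ih =>
    intro σ
    rw [W_succ, dyRun_append, dyRun_open]
    simp only [Option.bind_some]
    rw [dyRun_append, ih]
    simp only [Option.bind_some]
    rw [dyRun_append, ih]
    simp only [Option.bind_some]
    exact dyRun_close _ _

/-- A Dyck word with the bracket shape of the tree has matching colours at all nodes. -/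
theorem dy_nodes (m d : ℕ) : ∀ (off : ℕ) (y : ℕ → Bool) (σ σ' : List Bool),
    dyRun ((shape m d).zip ((List.range' off (len m d)).map y)) σ = some σ' →
    σ' = σ ∧ ∀ p q, IsNode m d off p q → ∀ j < m, y (p + j) = y (q - j) := by
  induction d with
  | zero =>
    intro off y σ σ' h
    simp only [shape, List.zip_nil_left, dyRun, Option.some.injEq] at h
    exact ⟨h.symm, fun p q hpq => absurd hpq (by simp [IsNode])⟩
  | succ d ih =>
    intro off y σ σ' h
    simp only [shape, len] at h
    rw [← List.range'_append_1, ← List.range'_append_1, ← List.range'_append_1,
      List.map_append, List.map_append, List.map_append,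
      List.zip_append (by simp), List.zip_append (by simp [shape_length]),
      List.zip_append (by simp [shape_length]), zip_replicate' true m _ (by simp),
      zip_replicate' false m _ (by simp), dyRun_append, dyRun_open] at h
    simp only [Option.bind_some] at h
    rw [dyRun_append] at h
    rcases h1 : dyRun ((shape m d).zip (List.map y (List.range' (off + m) (len m d))))
      ((List.map y (List.range' off m)).reverse ++ σ) with _ | σ1
    · simp [h1] at h
    rw [h1] at h
    simp only [Option.bind_some] at h
    obtain ⟨e1, n1⟩ := ih _ _ _ _ h1
    subst e1
    rw [dyRun_append] at h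
    rcases h2 : dyRun ((shape m d).zip (List.map y (List.range' (off + m + len m d) (len m d))))
      ((List.map y (List.range' off m)).reverse ++ σ) with _ | σ2
    · simp [h2] at h
    rw [h2] at h
    simp only [Option.bind_some] at h
    obtain ⟨e2, n2⟩ := ih _ _ _ _ h2
    subst e2
    obtain ⟨h3, h4⟩ := dyRun_close_inv _ _ _ _ (by simp) h
    refine ⟨h4, ?_⟩
    intro p q hpq j hj
    rcases hpq with ⟨hp, hq⟩ | hpq | hpq
    · subst hp
      have hq' : q = p + m + len m d + len m d + (m - 1) := by
        simp only [len] at hq
        omega
      have h5 := congrArg (fun l => l[m - 1 - j]?) h3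
      simp only [List.getElem?_map, List.getElem?_reverse (l := List.map y (List.range' p m))
        (i := m - 1 - j) (by simp; omega)] at h5
      rw [List.getElem?_range' (by omega), List.getElem?_range' (by simp; omega)] at h5
      simp only [Option.map_some, Option.some.injEq, List.length_map, List.length_range'] at h5
      rw [hq']
      have e3 : p + m + len m d + len m d + 1 * (m - 1 - j)
        = p + m + len m d + len m d + (m - 1) - j := by omega
      have e4 : p + 1 * (m - 1 - (m - 1 - j)) = p + j := by omega
      rw [e3, e4] at h5
      exact h5.symm
    · exact n1 p q hpq j hj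
    · exact n2 p q hpq j hj

/-- bounds for nodes -/
theorem node_bd (m d : ℕ) : ∀ off p q, IsNode m d off p q →
    off ≤ p ∧ p + m ≤ off + len m d ∧ q + 1 ≤ off + len m d ∧ p + 2 * m ≤ q + 1 := by
  induction d with
  | zero => intro off p q h; exact absurd h (by simp [IsNode])
  | succ d ih =>
    intro off p q h
    simp only [len]
    rcases h with ⟨h1, h2⟩ | h | h
    · simp only [len] at h2
      omega
    · have := ih _ _ _ h
      omega
    · have := ih _ _ _ h
      omega

/-- colours at the opening brackets of a node -/
theorem col_node (u : List Bool) (d : ℕ) : ∀ off p q, IsNode u.length d off p q →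
    ∀ j < u.length, (col u d)[p - off + j]? = u[j]? := by
  induction d with
  | zero => intro off p q h; exact absurd h (by simp [IsNode])
  | succ d ih =>
    intro off p q h j hj
    simp only [col]
    rcases h with ⟨h1, h2⟩ | h | h
    · subst h1
      rw [Nat.sub_self, Nat.zero_add, List.getElem?_append_left hj]
    · have hb := node_bd _ _ _ _ _ h
      rw [List.getElem?_append_right (by omega),
        List.getElem?_append_left (by rw [col_length]; omega)]
      rw [← ih _ _ _ h j hj]
      congr 1
      omega
    · have hb := node_bd _ _ _ _ _ h
      rw [List.getElem?_append_right (by omega),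
        List.getElem?_append_right (by rw [col_length]; omega), col_length,
        List.getElem?_append_left (by rw [col_length]; omega)]
      rw [← ih _ _ _ h j hj]
      congr 1
      omega

end Pool.Agent.H42CR
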