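import Pool.Agent.H42CR.Hyb
import Pool.Agent.H42CR.Word

/-!
The main theorem: the Church-Rosser language `Lng` is not generated by any programmed grammar
with appearance checking and without erasing rules.
-/

namespace Pool.Agent.H42CR

open Relation

section
variable {T : Type} {G : ProgGrammar T} (e : Inp ↪ T)

open Classical in
/-- the letter function of the terminal alphabet -/
noncomputable def clf (t : T) : Option (Bool × Bool) :=
  if h : ∃ x, e (some x) = t then some h.choose else none

theorem clf_some (x : Bool × Bool) : clf e (e (some x)) = some x := by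
  unfold clf
  have h : ∃ y, e (some y) = e (some x) := ⟨x, rfl⟩
  rw [dif_pos h]
  have := h.choose_spec
  have h2 := e.injective this
  simp at h2
  simp

theorem clf_none : clf e (e none) = none := by
  unfold clf
  rw [dif_neg]
  rintro ⟨y, hy⟩
  have := e.injective hy
  simp at this

theorem lt_map (w : List Inp) : lt (clf e) (w.map e) = w.filterMap id := by
  induction w with
  | nil => simp [lt]
  | cons a w ih =>
    unfold lt at ih ⊢
    cases a with
    | none => rw [List.map_cons, List.filterMap_cons_none (clf_none e), ih]; simp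
    | some x => rw [List.map_cons, List.filterMap_cons_some (clf_some e x), ih]; simp

theorem uniq_of_lang (hL : ∀ z ∈ G.lang, z ≠ [] → ∃ w ∈ Lng, z = w.map e)
    {D : List (Elt G)} {r0 r r' : G.Lab} {z : List T}
    (hr : ReflTransGen G.Der ([Sum.inl G.S], r0) (und D, r))
    (ht : ReflTransGen DDer (D, r) (fz z, r')) : Uniq (clf e) D := by
  intro x A y1 s y2 v hD h1 h2
  set D' : List (Elt G) := x ++ Sum.inl (A, y2) :: (s ++ Sum.inl (A, y1) :: v) with hD'
  have hm : mset D' = mset D := by
    rw [hD, hD']
    simp only [mset_append, mset_cons_inl, Multiset.add_cons]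
    rw [Multiset.cons_swap]
  have hu : und D' = und D := by
    rw [hD, hD']
    simp [und]
  have hz1 : word D ∈ G.lang :=
    ⟨r0, r', hr.trans (perm z r' ht D rfl)⟩
  have hz2 : word D' ∈ G.lang := by
    refine ⟨r0, r', ?_⟩
    have := perm z r' ht D' hm
    rw [hu] at this
    exact hr.trans this
  have e1 : word D = word x ++ (y1 ++ (word s ++ (y2 ++ word v))) := by
    rw [hD]; simp [word_append, word_cons, yl]
  have e2 : word D' = word x ++ (y2 ++ (word s ++ (y1 ++ word v))) := by
    rw [hD']; simp [word_append, word_cons, yl]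
  have hy1 : y1 ≠ [] := by
    rintro rfl
    simp [nl, lt] at h1
  obtain ⟨w, hw, hwe⟩ := hL _ hz1 (by rw [e1]; simp [hy1])
  obtain ⟨w', hw', hwe'⟩ := hL _ hz2 (by rw [e2]; simp [hy1])
  rw [e1] at hwe
  obtain ⟨wx, wr, rfl, hwx, hwr⟩ := List.map_eq_append_iff.mp hwe.symm
  obtain ⟨w1, wr, rfl, hw1, hwr⟩ := List.map_eq_append_iff.mp hwr
  obtain ⟨ws, wr, rfl, hws, hwr⟩ := List.map_eq_append_iff.mp hwr
  obtain ⟨w2, wv, rfl, hw2, hwv⟩ := List.map_eq_append_iff.mp hwr
  have hw'' : w' = wx ++ (w2 ++ (ws ++ (w1 ++ wv))) := by
    apply e.injective.list_map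
    rw [← hwe', e2]
    simp [hwx, hw1, hws, hw2, hwv]
  subst hw''
  rw [← hw1] at h1
  rw [← hw2] at h2
  unfold nl at h1 h2
  rw [lt_map] at h1 h2
  obtain ⟨a, p, n, p', c, hv1⟩ := two_letters w1 h1
  obtain ⟨a', q, n', q', c', hv2⟩ := two_letters w2 h2
  have g1 := rigid hv1 hv2 (sound hw)
  have g2 := rigid hv2 hv1 (sound hw')
  omega

/-- A stage with a node all of whose bracket pairs are separated. -/
theorem stage_exists [Fintype G.N] (hL : ∀ z ∈ G.lang, z ≠ [] → ∃ w ∈ Lng, z = w.map e)
    {c₀ g m : ℕ} (hc₀ : ∀ r, (G.rhs r).length ≤ c₀) (hm : c₀ < 2 * m)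
    (hg : 2 * Fintype.card G.N < g + 1)
    {z : List T} (hz : z ∈ G.lang) (hlen : nl (clf e) z = len m (2 * g + 1)) :
    ∃ (D : List (Elt G)) (r0 r r' : G.Lab) (p q : ℕ),
      ReflTransGen G.Der ([Sum.inl G.S], r0) (und D, r) ∧
      ReflTransGen DDer (D, r) (fz z, r') ∧ IsNode m (2 * g + 1) 0 p q ∧
      ∀ j < m, J (clf e) D (p + j) ≠ J (clf e) D (q - j) := by
  obtain ⟨r0, r', hz⟩ := hz
  obtain ⟨D0, hD0, hder⟩ := lift z r' hz
  obtain ⟨n, f, hf0, hfn, hf⟩ := chain_fun hder
  have hlenpos : 2 ≤ len m (2 * g + 1) := by
    simp only [len]; omega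
  -- every stage is fine
  have hstage : ∀ t, t ≤ n → ReflTransGen G.Der ([Sum.inl G.S], r0) (und (f t).1, (f t).2) ∧
      ReflTransGen DDer ((f t).1, (f t).2) (fz z, r') := by
    intro t ht
    constructor
    · have h1 := proj_rtg (fun_rtg hf 0 t (Nat.zero_le _) ht)
      rw [hf0] at h1
      simp only at h1 hD0
      rw [hD0] at h1
      exact h1
    · have h2 := fun_rtg hf t n ht (le_refl _)
      rw [hfn] at h2
      exact h2
  have huniq : ∀ t, t ≤ n → Uniq (clf e) (f t).1 := fun t ht =>
    uniq_of_lang e hL (hstage t ht).1 (hstage t ht).2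
  by_contra hcon
  push Not at hcon
  have hcut := cutwidth (m := m) (c₀ := c₀) (J := fun t i => J (clf e) (f (min t n)).1 i) (T := n)
    hm (by
      intro t i h
      by_cases ht : t < n
      · rw [min_eq_left (by omega)] at h ⊢
        exact (step_tags (clf e) (hf t ht)).1 i h
      · rw [min_eq_right (by omega)] at h ⊢
        exact h) (by
      intro t A hA
      by_cases ht : t < n
      · rw [min_eq_left (by omega), min_eq_left (by omega)] at hA
        exact le_trans ((step_tags (clf e) (hf t ht)).2 A hA) (hc₀ _)
      · rw [min_eq_right (by omega), min_eq_right (by omega)] at hA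
        have : A = ∅ := by
          apply Finset.eq_empty_of_forall_notMem
          intro i hi
          obtain ⟨g1, g2⟩ := hA i hi
          rw [g1] at g2
          simp at g2
        subst this
        simp) g 0 (by
      intro i _ hi
      rw [Nat.zero_min, hf0]
      simp only
      -- the first form
      have hD0' : ∃ y, D0 = [Sum.inl (G.S, y)] := by
        simp only [und] at hD0
        rcases D0 with _ | ⟨a, _ | ⟨b, l⟩⟩
        · simp at hD0
        · rcases a with ⟨B, y⟩ | t
          · simp at hD0
            exact ⟨y, by rw [hD0]⟩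
          · simp at hD0
        · simp at hD0
      obtain ⟨y, hy⟩ := hD0'
      have hyz : y = z := by
        have h1 := word_rtg hder
        simp only [word_fz] at h1
        rw [hy] at h1
        simpa [word, yl] using h1.symm
      subst hyz
      rw [J_iff]
      refine ⟨G.S, ?_⟩
      rw [hy]
      have h1 : tlist (clf e) ([Sum.inl (G.S, y)] : List (Elt G))
          = List.replicate (nl (clf e) y) (some G.S) := by
        simp only [tlist, List.flatMap_cons, List.flatMap_nil, List.append_nil, tg]
        rw [if_pos (by omega)]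
      rw [h1, List.getElem?_replicate, if_pos (by omega)]) (by
      intro i _ hi
      rw [min_self, hfn]
      simp only
      by_contra hc
      rw [Bool.not_eq_false, J_iff] at hc
      obtain ⟨A, hA⟩ := hc
      obtain ⟨y, hy, -⟩ := mem_tlist (clf e) (List.mem_of_getElem? hA)
      simp [fz] at hy) (by
      intro t p q hpq
      obtain ⟨h1, h2⟩ := hstage (min t n) (min_le_right _ _)
      obtain ⟨j, hj, hj2⟩ := hcon _ r0 _ r' p q h1 h2 hpq
      exact ⟨j, hj, hj2⟩)
  obtain ⟨t, ht⟩ := hcut
  have := chg_le (clf e) (huniq (min t n) (min_le_right _ _)) (0 + len m (2 * g + 1) - 1)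
  have h3 := le_trans ht this
  omega

end

theorem zip_get (a b : List Bool) (h : a.length = b.length) (i : ℕ) :
    (a.zip b)[i]? = if i < a.length then some (a.getD i false, b.getD i false) else none := by
  by_cases hi : i < a.length
  · rw [if_pos hi, List.getElem?_eq_getElem (by simp; omega), List.getElem_zip,
      List.getD_eq_getElem _ _ hi, List.getD_eq_getElem _ _ (by omega)]
  · rw [if_neg hi, List.getElem?_eq_none (by simp; omega)]

/-- The combinatorial conclusion for a hybrid word. -/
theorem hybrid_nodes (u u' : List Bool) (m d : ℕ) (hu : u.length = m) (hu' : u'.length = m)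
    (j₀ : ℕ → Bool) (h : List (Bool × Bool))
    (hget : ∀ i, h[i]? = if j₀ i = true then (W u' d)[i]? else (W u d)[i]?)
    (hdy : dyRun h [] = some []) {p q : ℕ} (hpq : IsNode m d 0 p q)
    (hsep : ∀ j < m, j₀ (p + j) ≠ j₀ (q - j)) : u = u' := by
  have hcl : ∀ v : List Bool, v.length = m → (col v d).length = len m d := by
    intro v hv; rw [col_length, hv]
  set y : ℕ → Bool := fun i => if j₀ i = true then (col u' d).getD i false
    else (col u d).getD i false with hy
  -- general description of the bracket words
  have hW : ∀ v : List Bool, v.length = m → W v d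
      = (shape m d).zip ((List.range' 0 (len m d)).map fun i => (col v d).getD i false) := by
    intro v hv
    unfold W
    rw [hv]
    congr 1
    apply List.ext_getElem
    · simp [hcl v hv]
    · intro i h1 h2
      simp only [List.getElem_map, List.getElem_range', Nat.zero_add, Nat.one_mul]
      rw [List.getD_eq_getElem _ _ h1]
  have hh : h = (shape m d).zip ((List.range' 0 (len m d)).map y) := by
    apply List.ext_getElem?
    intro i
    rw [hget i, zip_get _ _ (by simp [shape_length])]
    have g1 : ∀ v : List Bool, v.length = m → (W v d)[i]? = if i < len m d then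
        some ((shape m d).getD i false, (col v d).getD i false) else none := by
      intro v hv
      unfold W
      rw [hv, zip_get _ _ (by rw [shape_length, hcl v hv]), shape_length]
    rw [g1 u hu, g1 u' hu', shape_length]
    by_cases hi : i < len m d
    · rw [if_pos hi, if_pos hi, if_pos hi]
      have g2 : ((List.range' 0 (len m d)).map y).getD i false = y i := by
        rw [List.getD_eq_getElem _ _ (by simpa using hi)]
        simp
      rw [g2, hy]
      simp only
      by_cases hj : j₀ i = true
      · rw [if_pos hj, if_pos hj]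
      · rw [if_neg hj, if_neg hj]
    · rw [if_neg hi, if_neg hi]
      simp
      omega
  rw [hh] at hdy
  obtain ⟨-, hn⟩ := dy_nodes m d 0 y [] [] hdy
  have hnu : ∀ v : List Bool, v.length = m → ∀ j < m,
      (col v d).getD (p + j) false = (col v d).getD (q - j) false := by
    intro v hv j hj
    have h1 := W_dyck v d []
    rw [hW v hv] at h1
    obtain ⟨-, h2⟩ := dy_nodes m d 0 _ [] [] h1
    exact h2 p q hpq j hj
  have hcol : ∀ v : List Bool, v.length = m → ∀ j < m,
      (col v d).getD (p + j) false = v.getD j false := by
    intro v hv j hj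
    have hb := node_bd _ _ _ _ _ hpq
    have h1 := col_node v d 0 p q (by rw [hv]; exact hpq) j (by omega)
    rw [Nat.sub_zero] at h1
    rw [List.getD_eq_getElem?_getD, List.getD_eq_getElem?_getD, h1]
  apply List.ext_getElem (by omega)
  intro j h1 h2
  have hj : j < m := by omega
  have h3 := hn p q hpq j hj
  have h4 := hsep j hj
  rw [hy] at h3
  simp only at h3
  have h5 : u.getD j false = u'.getD j false := by
    cases hv : j₀ (p + j) with
    | true =>
      have hv' : j₀ (q - j) = false := by
        cases hv' : j₀ (q - j)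
        · rfl
        · rw [hv, hv'] at h4; exact absurd rfl h4
      rw [hv, hv'] at h3
      simp only [if_true, Bool.false_eq_true, if_false] at h3
      rw [hcol u' hu' j hj, ← hnu u hu j hj, hcol u hu j hj] at h3
      exact h3.symm
    | false =>
      have hv' : j₀ (q - j) = true := by
        cases hv' : j₀ (q - j)
        · rw [hv, hv'] at h4; exact absurd rfl h4
        · rfl
      rw [hv, hv'] at h3
      simp only [if_true, Bool.false_eq_true, if_false] at h3
      rw [hcol u hu j hj, ← hnu u' hu' j hj, hcol u' hu' j hj] at h3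
      exact h3
  rw [List.getD_eq_getElem _ _ h1, List.getD_eq_getElem _ _ h2] at h5
  exact h5

theorem mkT_length (xs : List (Bool × Bool)) : ∀ q,
    (mkT q xs).length ≤ xs.length * (q + xs.length + 1) := by
  induction xs with
  | nil => intro q; simp [mkT]
  | cons x xs ih =>
    intro q
    simp only [mkT, List.length_cons, List.length_append, List.length_replicate]
    have := ih (q + 1)
    nlinarith

theorem mkT_letters (xs : List (Bool × Bool)) : ∀ q, (mkT q xs).filterMap id = xs := by
  induction xs with
  | nil => intro q; simp [mkT]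
  | cons x xs ih =>
    intro q
    have : ∀ n, (List.replicate n (none : Inp)).filterMap id = [] := by
      intro n
      induction n with
      | zero => rfl
      | succ n ih => rw [List.replicate_succ, List.filterMap_cons_none (by rfl), ih]
    simp only [mkT]
    rw [List.filterMap_cons_some (b := x) (by rfl), List.filterMap_append, this, ih]
    simp

theorem mk_letters (xs : List (Bool × Bool)) (q : ℕ) : (mk q xs).filterMap id = xs := by
  have : ∀ n, (List.replicate n (none : Inp)).filterMap id = [] := by
    intro n
    induction n with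
    | zero => rfl
    | succ n ih => rw [List.replicate_succ, List.filterMap_cons_none (by rfl), ih]
  unfold mk
  rw [List.filterMap_append, this, mkT_letters]
  simp

theorem len_eq (m d : ℕ) : len m d + 2 * m = m * 2 ^ (d + 1) := by
  induction d with
  | zero => simp [len]; ring
  | succ d ih =>
    simp only [len]
    rw [pow_succ]
    nlinarith

theorem exists_exp (A B : ℕ) : ∃ j, A * j + B < 2 ^ j := by
  refine ⟨2 * (2 * A + B + 1), ?_⟩
  have h1 : 2 * A + B + 1 < 2 ^ (2 * A + B + 1) := Nat.lt_two_pow_self
  have h2 : 2 ^ (2 * (2 * A + B + 1)) = 2 ^ (2 * A + B + 1) * 2 ^ (2 * A + B + 1) := by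
    rw [two_mul, pow_add]
  rw [h2]
  have h3 : (2 * A + B + 1) * (2 * A + B + 1) < 2 ^ (2 * A + B + 1) * 2 ^ (2 * A + B + 1) :=
    Nat.mul_lt_mul'' h1 h1
  nlinarith

end Pool.Agent.H42CR
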