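import Pool.Agent.H42CR.Defs

/-!
Decorated derivations of programmed grammars.
-/

namespace Pool.Agent.H42CR

open Relation

section
variable {T : Type} (G : ProgGrammar T)

/-- A decorated symbol: a nonterminal together with its final yield, or a terminal. -/
abbrev Elt := (G.N × List T) ⊕ T

variable {G}

def und (D : List (Elt G)) : List (G.N ⊕ T) := D.map (Sum.map Prod.fst id)

def yl : Elt G → List T
  | Sum.inl p => p.2
  | Sum.inr t => [t]

def word (D : List (Elt G)) : List T := D.flatMap yl

def mset (D : List (Elt G)) : Multiset (G.N × List T) :=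
  ((D.filterMap Sum.getLeft? : List (G.N × List T)) : Multiset (G.N × List T))

theorem und_append (x y : List (Elt G)) : und (x ++ y) = und x ++ und y := by simp [und]
theorem word_append (x y : List (Elt G)) : word (x ++ y) = word x ++ word y := by simp [word]
theorem mset_append (x y : List (Elt G)) : mset (x ++ y) = mset x + mset y := by simp [mset]
theorem word_cons (e : Elt G) (y : List (Elt G)) : word (e :: y) = yl e ++ word y := by
  simp [word]
theorem mset_cons_inl (p : G.N × List T) (y : List (Elt G)) :
    mset (Sum.inl p :: y : List (Elt G)) = p ::ₘ mset y := by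
  simp [mset]
theorem mset_cons_inr (t : T) (y : List (Elt G)) :
    mset (Sum.inr t :: y : List (Elt G)) = mset y := by
  unfold mset
  rw [List.filterMap_cons_none (by rfl)]

theorem mem_mset {p : G.N × List T} {D : List (Elt G)} : p ∈ mset D ↔ Sum.inl p ∈ D := by
  simp only [mset, Multiset.mem_coe, List.mem_filterMap]
  constructor
  · rintro ⟨a, ha, h⟩
    cases a with
    | inl q =>
      simp only [Sum.getLeft?_inl, Option.some.injEq] at h
      subst h; exact ha
    | inr t => simp at h
  · intro h
    exact ⟨_, h, rfl⟩

/-- Fully terminal decorated form. -/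
def fz (z : List T) : List (Elt G) := z.map Sum.inr

theorem und_fz (z : List T) : und (fz z : List (Elt G)) = z.map Sum.inr := by
  simp [und, fz]
theorem word_fz (z : List T) : word (fz z : List (Elt G)) = z := by
  induction z with
  | nil => simp [word, fz]
  | cons a z ih =>
    have : word (fz (a :: z) : List (Elt G)) = a :: word (fz z : List (Elt G)) := by
      simp [fz, word, yl]
    rw [this, ih]
theorem mset_fz (z : List T) : mset (fz z : List (Elt G)) = 0 := by
  induction z with
  | nil => simp [mset, fz]
  | cons a z ih =>
    have : mset (fz (a :: z) : List (Elt G)) = mset (fz z : List (Elt G)) := mset_cons_inr a _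
    rw [this, ih]

theorem und_of_mset_zero {D : List (Elt G)} (h : mset D = 0) : und D = (word D).map Sum.inr := by
  induction D with
  | nil => simp [und, word]
  | cons a D ih =>
    cases a with
    | inl p => rw [mset_cons_inl] at h; simp at h
    | inr t =>
      rw [mset_cons_inr] at h
      rw [word_cons, List.map_append, ← ih h]
      simp [und, yl]

/-- Decorated derivation steps. -/
inductive DDer : List (Elt G) × G.Lab → List (Elt G) × G.Lab → Prop
  | app (x y W : List (Elt G)) (r r' : G.Lab) : r' ∈ G.succ r → und W = G.rhs r →
      DDer (x ++ [Sum.inl (G.lhs r, word W)] ++ y, r) (x ++ W ++ y, r')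
  | chk (x : List (Elt G)) (r r' : G.Lab) : Sum.inl (G.lhs r) ∉ und x → r' ∈ G.fail r →
      DDer (x, r) (x, r')

theorem DDer.proj {a b : List (Elt G) × G.Lab} (h : DDer a b) :
    G.Der (und a.1, a.2) (und b.1, b.2) := by
  cases h with
  | app x y W r r' h1 h2 =>
    have := ProgGrammar.Der.app (G := G) (und x) (und y) r r' h1
    simp only [und_append, h2]
    exact this
  | chk x r r' h1 h2 => exact ProgGrammar.Der.chk (und x) r r' h1 h2

theorem DDer.word_eq {a b : List (Elt G) × G.Lab} (h : DDer a b) : word b.1 = word a.1 := by
  cases h with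
  | app x y W r r' h1 h2 =>
    simp only [word_append]
    simp [word, yl]
  | chk x r r' h1 h2 => rfl

theorem proj_rtg {a b : List (Elt G) × G.Lab} (h : ReflTransGen DDer a b) :
    ReflTransGen G.Der (und a.1, a.2) (und b.1, b.2) := by
  induction h with
  | refl => exact ReflTransGen.refl
  | tail _ hs ih => exact ih.tail hs.proj

theorem word_rtg {a b : List (Elt G) × G.Lab} (h : ReflTransGen DDer a b) :
    word b.1 = word a.1 := by
  induction h with
  | refl => rfl
  | tail _ hs ih => rw [hs.word_eq, ih]

/-- Decorating a successful derivation. -/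
theorem lift (z : List T) (r' : G.Lab) {a : List (G.N ⊕ T) × G.Lab}
    (h : ReflTransGen G.Der a (z.map Sum.inr, r')) :
    ∃ D : List (Elt G), und D = a.1 ∧ ReflTransGen DDer (D, a.2) (fz z, r') := by
  induction h using ReflTransGen.head_induction_on with
  | refl => exact ⟨fz z, und_fz z, ReflTransGen.refl⟩
  | head hs _ ih =>
    obtain ⟨D, hD, hrtg⟩ := ih
    cases hs with
    | app x y r r1 h1 =>
      simp only [und] at hD
      rw [List.map_eq_append_iff] at hD
      obtain ⟨D12, D3, rfl, h12, h3⟩ := hD
      rw [List.map_eq_append_iff] at h12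
      obtain ⟨D1, D2, rfl, h11, h2⟩ := h12
      refine ⟨D1 ++ [Sum.inl (G.lhs r, word D2)] ++ D3, ?_, ?_⟩
      · simp [und, ← h11, ← h3]
      · exact ReflTransGen.head (DDer.app D1 D3 D2 r r1 h1 h2) hrtg
    | chk x r r1 h1 h2 =>
      refine ⟨D, hD, ReflTransGen.head (DDer.chk D r r1 ?_ h2) hrtg⟩
      rw [hD]; exact h1

/-- Only the multiset of decorated nonterminals matters. -/
theorem perm (z : List T) (r' : G.Lab) {a : List (Elt G) × G.Lab}
    (h : ReflTransGen DDer a (fz z, r')) : ∀ D : List (Elt G), mset D = mset a.1 →
    ReflTransGen G.Der (und D, a.2) ((word D).map Sum.inr, r') := by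
  induction h using ReflTransGen.head_induction_on with
  | refl =>
    intro D hD
    rw [mset_fz] at hD
    rw [und_of_mset_zero hD]
  | head hs _ ih =>
    intro D hD
    cases hs with
    | app x y W r r1 h1 h2 =>
      have hmem : Sum.inl (G.lhs r, word W) ∈ D := by
        rw [← mem_mset, hD]
        simp only [mset_append]
        simp [mset]
      obtain ⟨D1, D2, rfl⟩ := List.append_of_mem hmem
      have hm : mset (D1 ++ W ++ D2) = mset (x ++ W ++ y) := by
        simp only [mset_append, mset_cons_inl] at hD ⊢
        have e1 : mset ([] : List (Elt G)) = 0 := by simp [mset]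
        rw [e1] at hD
        have h3 : (G.lhs r, word W) ::ₘ (mset D1 + mset D2)
            = (G.lhs r, word W) ::ₘ (mset x + mset y) := by
          rw [← Multiset.add_cons, hD, ← Multiset.singleton_add, ← Multiset.singleton_add]
          abel
        have h4 := (Multiset.cons_inj_right _).mp h3
        calc mset D1 + mset W + mset D2 = (mset D1 + mset D2) + mset W := by abel
          _ = (mset x + mset y) + mset W := by rw [h4]
          _ = _ := by abel
      have h5 := ih _ hm
      have h6 : word (D1 ++ W ++ D2) = word (D1 ++ Sum.inl (G.lhs r, word W) :: D2) := by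
        simp [word_append, word_cons, yl]
      rw [h6] at h5
      refine ReflTransGen.head ?_ h5
      have h7 := ProgGrammar.Der.app (G := G) (und D1) (und D2) r r1 h1
      have h8 : und (D1 ++ Sum.inl (G.lhs r, word W) :: D2)
          = und D1 ++ [Sum.inl (G.lhs r)] ++ und D2 := by simp [und]
      rw [h8, und_append, und_append, h2]
      exact h7
    | chk x r r1 h1 h2 =>
      refine ReflTransGen.head (ProgGrammar.Der.chk (und D) r r1 ?_ h2) (ih D hD)
      intro hmem
      apply h1
      simp only [und, List.mem_map] at hmem ⊢
      obtain ⟨e, he, hee⟩ := hmem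
      cases e with
      | inl p =>
        refine ⟨Sum.inl p, ?_, hee⟩
        rw [← mem_mset, ← hD, mem_mset]
        exact he
      | inr t => simp at hee

/-- Yields are nonempty when there are no erasing rules. -/
theorem nonempty_yl (hne : G.NonErasing) (z : List T) (r' : G.Lab) {a : List (Elt G) × G.Lab}
    (h : ReflTransGen DDer a (fz z, r')) : ∀ e ∈ a.1, yl e ≠ [] := by
  induction h using ReflTransGen.head_induction_on with
  | refl =>
    intro e he
    simp only [fz, List.mem_map] at he
    obtain ⟨t, -, rfl⟩ := he
    simp [yl]
  | head hs _ ih =>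
    cases hs with
    | app x y W r r1 h1 h2 =>
      intro e he
      simp only [List.append_assoc, List.mem_append, List.mem_singleton] at he
      rcases he with he | he | he
      · exact ih e (by simp [he])
      · subst he
        simp only [yl]
        have hW : W ≠ [] := by
          rintro rfl
          exact hne r (by rw [← h2]; rfl)
        obtain ⟨e', W', rfl⟩ := List.exists_cons_of_ne_nil hW
        rw [word_cons]
        have := ih e' (by simp)
        simp [this]
      · exact ih e (by simp [he])
    | chk x r r1 h1 h2 => exact ih

/-- A chain as a function. -/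
theorem chain_fun {α : Type*} {r : α → α → Prop} {a b : α} (h : ReflTransGen r a b) :
    ∃ (n : ℕ) (f : ℕ → α), f 0 = a ∧ f n = b ∧ ∀ i < n, r (f i) (f (i + 1)) := by
  induction h using ReflTransGen.head_induction_on with
  | refl => exact ⟨0, fun _ => b, rfl, rfl, fun i hi => absurd hi (by omega)⟩
  | @head a c hs _ ih =>
    obtain ⟨n, f, h0, hn, hf⟩ := ih
    refine ⟨n + 1, fun i => if i = 0 then a else f (i - 1), by simp, by simp [hn], ?_⟩
    intro i hi
    cases i with
    | zero => simpa [h0] using hs
    | succ i => simpa using hf i (by omega)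

theorem fun_rtg {α : Type*} {r : α → α → Prop} {n : ℕ} {f : ℕ → α}
    (h : ∀ i < n, r (f i) (f (i + 1))) : ∀ i j, i ≤ j → j ≤ n → ReflTransGen r (f i) (f j) := by
  intro i j hij
  induction hij with
  | refl => intro _; exact ReflTransGen.refl
  | step _ ih => intro hj; exact (ih (by omega)).tail (h _ (by omega))

end

end Pool.Agent.H42CR
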