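import Pool.Agent.H42CR.Sys

/-!
Soundness of the system: an invariant automaton, backward closed under the rules.
-/

namespace Pool.Agent.H42CR

open Relation Sy

/-- Input symbols: `none` is the filler `f`, `some (true, b)` is an opening bracket of colour `b`,
`some (false, b)` a closing one. -/
abbrev Inp := Option (Bool × Bool)

/-- The embedding of the input alphabet. -/
def emb : Inp → Sy
  | none => f false
  | some x => X false true x

theorem emb_inj : Function.Injective emb := by
  intro a b h
  cases a <;> cases b <;> simp_all [emb]

/-- Dyck step on a stack. -/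
def dy : Bool × Bool → List Bool → Option (List Bool)
  | (true, b), σ => some (b :: σ)
  | (false, _), [] => none
  | (false, b), a :: σ => if a = b then some σ else none

/-- Dyck run. -/
def dyRun : List (Bool × Bool) → List Bool → Option (List Bool)
  | [], σ => some σ
  | x :: xs, σ => (dy x σ).bind (dyRun xs)

/-- states of the invariant automaton -/
inductive St
  | start
  | stk (σ : List Bool)
  | blk (τ : Bool) (E : Option ℕ) (m : ℕ) (σ : List Bool)
  | fin

def asb (τ : Bool) : St → Option (Option ℕ × ℕ × List Bool)
  | St.stk σ => some (none, 0, σ)
  | St.blk τ' E m σ => if τ' = τ then some (E, m, σ) else none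
  | _ => none

def okb (E : Option ℕ) (m : ℕ) : Bool := E.all (· == m)

def stp : St → Sy → Option St
  | s, f τ => (asb τ s).map fun p => St.blk τ p.1 (p.2.1 + 1) p.2.2
  | s, X τ c x => (asb τ s).bind fun p =>
      if okb p.1 p.2.1 then (dy x p.2.2).map fun σ' => St.blk τ (some (p.2.1 + c.toNat)) 0 σ'
      else none
  | s, R τ e => (asb (!τ) s).map fun p =>
      St.blk τ (p.1.map fun n => 2 * n + e.toNat) (2 * p.2.1) p.2.2
  | s, dol τ => (asb τ s).bind fun p =>
      if okb p.1 p.2.1 ∧ p.2.2 = [] then some St.fin else none
  | St.stk σ, sl b => some (St.stk (b :: σ))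
  | _, sl _ => none
  | St.stk σ, D τ => some (St.blk τ (some 1) 1 σ)
  | _, D _ => none
  | St.start, cent => some (St.stk [])
  | _, cent => none
  | St.start, Y => some St.fin
  | _, Y => none

def rn : St → List Sy → Option St
  | s, [] => some s
  | s, a :: l => (stp s a).bind fun s' => rn s' l

theorem rn_append (s : St) (l₁ l₂ : List Sy) :
    rn s (l₁ ++ l₂) = (rn s l₁).bind fun s' => rn s' l₂ := by
  induction l₁ generalizing s with
  | nil => simp [rn]
  | cons a l ih =>
    simp only [List.cons_append, rn]
    cases stp s a with
    | none => simp
    | some s' => simp [ih]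

theorem okb_some (n m : ℕ) : okb (some n) m = true ↔ n = m := by
  simp [okb]

theorem okb_none (m : ℕ) : okb none m = true := by simp [okb]

theorem rule_back {l r : List Sy} (h : Rule l r) : ∀ s s', rn s r = some s' → rn s l = some s' := by
  cases h with
  | L1 τ e =>
    intro s s' h
    simp only [rn, stp] at h ⊢
    rcases h1 : asb (!τ) s with _ | ⟨E, m, σ⟩
    · simp [h1] at h
    · rw [h1] at h
      simpa [asb, mul_add] using h
  | L2 τ c x =>
    intro s s' h
    simp only [rn, stp] at h ⊢
    rcases h1 : asb (!τ) s with _ | ⟨E, m, σ⟩
    · simp [h1] at h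
    · rw [h1] at h
      rcases h2 : dy x σ with _ | σ'
      · cases E <;> simp [h2, asb] at h
      · cases E with
        | none => cases c <;> simp [asb, h2, okb] at h ⊢ <;> rw [← h] <;> congr 2
        | some n =>
          by_cases hn : n = m
          · subst hn
            cases c <;> simp [asb, h2, okb] at h ⊢ <;> rw [← h] <;> congr 2
          · simp [asb, okb, hn] at h
  | L3 τ c x =>
    intro s s' h
    simp only [rn, stp] at h ⊢
    rcases h1 : asb (!τ) s with _ | ⟨E, m, σ⟩
    · simp [h1] at h
    · rw [h1] at h
      rcases h2 : dy x σ with _ | σ'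
      · cases E <;> simp [h2, asb] at h
      · cases E with
        | none => cases c <;> simp [asb, h2, okb] at h ⊢ <;> rw [← h]
        | some n =>
          by_cases hn : n = m
          · subst hn
            cases c <;> simp [asb, h2, okb] at h ⊢ <;> rw [← h]
          · simp [asb, okb, hn] at h
  | L4 τ =>
    intro s s' h
    simp only [rn, stp] at h ⊢
    rcases h1 : asb (!τ) s with _ | ⟨E, m, σ⟩
    · simp [h1] at h
    · rw [h1] at h
      cases E with
      | none => simpa [asb, okb] using h
      | some n => simpa [asb, okb] using h
  | L5 τ =>
    intro s s' h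
    simp only [rn, stp] at h ⊢
    rcases h1 : asb (!τ) s with _ | ⟨E, m, σ⟩
    · simp [h1] at h
    · rw [h1] at h
      cases E with
      | none => simpa [asb, okb] using h
      | some n => simpa [asb, okb] using h
  | S1 τ =>
    intro s s' h
    cases s <;> simp [rn, stp, asb] at h ⊢
    exact h
  | S2 τ c x =>
    intro s s' h
    cases s with
    | start =>
      simp only [rn, stp] at h ⊢
      rcases h2 : dy x [] with _ | σ'
      · simp [asb, okb, h2] at h
      · cases c <;> simpa [asb, okb, h2] using h
    | stk σ => simp [rn, stp] at h
    | blk τ' E m σ => simp [rn, stp] at h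
    | fin => simp [rn, stp] at h
  | S3 τ b =>
    intro s s' h
    cases s with
    | start => simpa [rn, stp, asb, okb, dy] using h
    | stk σ => simp [rn, stp] at h
    | blk τ' E m σ => simp [rn, stp] at h
    | fin => simp [rn, stp] at h
  | D1 τ b =>
    intro s s' h
    cases s with
    | start => simp [rn, stp] at h
    | stk σ => simpa [rn, stp, asb, okb, dy] using h
    | blk τ' E m σ => simp [rn, stp] at h
    | fin => simp [rn, stp] at h
  | D2 τ b =>
    intro s s' h
    cases s with
    | start => simp [rn, stp] at h
    | stk σ => simpa [rn, stp, asb, okb, dy] using h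
    | blk τ' E m σ => simp [rn, stp] at h
    | fin => simp [rn, stp] at h
  | D3 τ =>
    intro s s' h
    cases s with
    | start => simpa [rn, stp, asb, okb, dy] using h
    | stk σ => simp [rn, stp] at h
    | blk τ' E m σ => simp [rn, stp] at h
    | fin => simp [rn, stp] at h

theorem step_back {u v : List Sy} (h : Step sys u v) {s s' : St} (hr : rn s v = some s') :
    rn s u = some s' := by
  obtain ⟨x, y, l, r, hlr, rfl, rfl⟩ := h
  rw [rn_append, rn_append] at hr ⊢
  rcases h1 : rn s x with _ | s1
  · simp [h1] at hr
  · rw [h1] at hr
    simp only [Option.bind_some] at hr ⊢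
    rcases h2 : rn s1 r with _ | s2
    · simp [h2] at hr
    · rw [rule_back hlr s1 s2 h2]
      rw [h2] at hr
      exact hr

theorem red_back {u v : List Sy} (h : Red sys u v) {s s' : St} (hr : rn s v = some s') :
    rn s u = some s' := by
  induction h with
  | refl => exact hr
  | tail _ hs ih => exact ih (step_back hs hr)

/-- The automaton on input words: expected block length, current block length, stack. -/
def chk : Option ℕ → ℕ → List Bool → List Inp → Bool
  | E, m, σ, [] => okb E m && σ.isEmpty
  | E, m, σ, none :: w => chk E (m + 1) σ w
  | E, m, σ, some x :: w =>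
    okb E m && (match dy x σ with
      | none => false
      | some σ' => chk (some (m + 1)) 0 σ' w)

theorem rn_chk (w : List Inp) : ∀ (s : St) (E : Option ℕ) (m : ℕ) (σ : List Bool),
    asb false s = some (E, m, σ) → rn s (w.map emb ++ [dol false]) = some St.fin →
    chk E m σ w = true := by
  induction w with
  | nil =>
    intro s E m σ hs h
    simp only [List.map_nil, List.nil_append, rn, stp, hs] at h
    simp only [chk, Bool.and_eq_true, List.isEmpty_iff]
    by_contra hc
    simp [hc] at h
  | cons a w ih =>
    intro s E m σ hs h
    cases a with
    | none =>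
      simp only [chk]
      simp only [List.map_cons, emb, List.cons_append, rn, stp, hs, Option.map_some,
        Option.bind_some] at h
      exact ih _ _ _ _ (by simp [asb]) h
    | some x =>
      simp only [List.map_cons, emb, List.cons_append, rn, stp, hs,
        Option.bind_some] at h
      simp only [chk, Bool.and_eq_true]
      by_cases hok : okb E m = true
      · rw [if_pos hok] at h
        rcases h2 : dy x σ with _ | σ'
        · simp [h2] at h
        · rw [h2] at h
          refine ⟨hok, ?_⟩
          simp only [Option.map_some, Option.bind_some, Bool.toNat_true] at h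
          exact ih _ _ _ _ (by simp [asb]) h
      · simp [hok] at h

/-- The Church-Rosser language. -/
def Lng : Set (List Inp) := {w | Red sys ([cent] ++ w.map emb ++ [dol false]) [Y]}

theorem sound {w : List Inp} (h : w ∈ Lng) : chk none 0 [] w = true := by
  have h1 : rn St.start [Y] = some St.fin := by simp [rn, stp]
  have h2 := red_back h h1
  have h3 : rn (St.stk []) (w.map emb ++ [dol false]) = some St.fin := by
    simpa [rn, stp] using h2
  exact rn_chk w (St.stk []) none 0 [] (by simp [asb]) h3

end Pool.Agent.H42CR
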