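import Pool.Agent.H42CR.Prof
import Pool.Agent.H42CR.Snd

/-!
Replacement of yields (hybrids), and rigidity of the language.
-/

namespace Pool.Agent.H42CR

open Relation

section
variable {T : Type} {G : ProgGrammar T} (cl : T → Option (Bool × Bool))

/-- class of a yield: `none` if large, otherwise its letter content -/
def cls (y : List T) : Option (Option (Bool × Bool)) :=
  if 2 ≤ nl cl y then none else some (lt cl y).head?

theorem lt_of_small {y : List T} (h : ¬ 2 ≤ nl cl y) : lt cl y = (lt cl y).head?.toList := by
  unfold nl at h
  rcases hl : lt cl y with _ | ⟨a, _ | ⟨b, l⟩⟩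
  · rfl
  · rfl
  · rw [hl] at h; simp at h

/-- relation between decorated symbols -/
def Rel : Elt G → Elt G → Prop
  | Sum.inl p, Sum.inl q => p.1 = q.1 ∧ cls cl p.2 = cls cl q.2
  | Sum.inr t, Sum.inr t' => t = t'
  | _, _ => False

/-- type and class -/
def ty (p : G.N × List T) : G.N × Option (Option (Bool × Bool)) := (p.1, cls cl p.2)

theorem redecorate (D : List (Elt G)) : ∀ M : Multiset (G.N × List T),
    M.map (ty cl) = (mset D).map (ty cl) → ∃ D', mset D' = M ∧ List.Forall₂ (Rel cl) D D' := by
  induction D with
  | nil =>
    intro M hM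
    have : M = 0 := by
      have h0 : mset ([] : List (Elt G)) = 0 := by simp [mset]
      rw [h0] at hM
      simpa using hM
    exact ⟨[], by rw [this]; simp [mset], List.Forall₂.nil⟩
  | cons e D ih =>
    intro M hM
    cases e with
    | inr t =>
      rw [mset_cons_inr] at hM
      obtain ⟨D', h1, h2⟩ := ih M hM
      exact ⟨Sum.inr t :: D', by rw [mset_cons_inr, h1], List.Forall₂.cons rfl h2⟩
    | inl p =>
      rw [mset_cons_inl, Multiset.map_cons] at hM
      have hmem : ty cl p ∈ M.map (ty cl) := by rw [hM]; exact Multiset.mem_cons_self _ _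
      rw [Multiset.mem_map] at hmem
      obtain ⟨q, hq, hqp⟩ := hmem
      obtain ⟨M', rfl⟩ := Multiset.exists_cons_of_mem hq
      rw [Multiset.map_cons, hqp, Multiset.cons_inj_right] at hM
      obtain ⟨D', h1, h2⟩ := ih M' hM
      refine ⟨Sum.inl q :: D', by rw [mset_cons_inl, h1], List.Forall₂.cons ?_ h2⟩
      simp only [ty, Prod.mk.injEq] at hqp
      exact ⟨hqp.1.symm, hqp.2.symm⟩

theorem rel_und {D D' : List (Elt G)} (h : List.Forall₂ (Rel cl) D D') : und D' = und D := by
  induction h with
  | nil => rfl
  | @cons a b l₁ l₂ hab _ ih =>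
    have : Sum.map Prod.fst (id : T → T) b = Sum.map Prod.fst (id : T → T) a := by
      rcases a with p | t <;> rcases b with q | t'
      · simp only [Rel] at hab
        simp [hab.1]
      · simp [Rel] at hab
      · simp [Rel] at hab
      · simp only [Rel] at hab
        simp [hab]
    simp only [und, List.map_cons] at ih ⊢
    rw [ih, this]

theorem hybrid {D D₁ D₂ : List (Elt G)} (hU : Uniq cl D) (hU₁ : Uniq cl D₁)
    (hs : ∀ A, sA cl D A = sA cl D₁ A) (hl : ∀ A, lA cl D A = lA cl D₁ A)
    (hm : mset D₂ = mset D₁) (hR : List.Forall₂ (Rel cl) D D₂) (i : ℕ) :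
    (lt cl (word D₂))[i]? = if J cl D i = true then (lt cl (word D₁))[i]?
      else (lt cl (word D))[i]? := by
  have key : ∀ Y Y₂ : List (Elt G), List.Forall₂ (Rel cl) Y Y₂ → ∀ x, D = x ++ Y →
      (∀ e ∈ Y₂, e ∈ D₂) → ∀ i, (lt cl (word Y₂))[i]? =
        if ((tlist cl Y)[i]?.join).isSome = true then (lt cl (word D₁))[nl cl (word x) + i]?
        else (lt cl (word Y))[i]? := by
    intro Y Y₂ h
    induction h with
    | nil =>
      intro x _ _ i
      simp [word, lt, tlist]
    | @cons a b l₁ l₂ hab _ ih =>
      intro x hx hmem i
      -- local statement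
      have hloc : nl cl (yl b) = nl cl (yl a) ∧ ∀ i < nl cl (yl a), (lt cl (yl b))[i]? =
          if ((tg cl a)[i]?.join).isSome = true then (lt cl (word D₁))[nl cl (word x) + i]?
          else (lt cl (yl a))[i]? := by
        rcases a with ⟨A, y⟩ | t <;> rcases b with ⟨B, y'⟩ | t'
        · simp only [Rel] at hab
          obtain ⟨rfl, hc⟩ := hab
          simp only [yl, tg]
          by_cases h2 : 2 ≤ nl cl y
          · have h2' : 2 ≤ nl cl y' := by
              by_contra hcon
              unfold cls at hc
              rw [if_pos h2, if_neg hcon] at hc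
              simp at hc
            have hin : Sum.inl (A, y') ∈ D₁ := by
              rw [← mem_mset, ← hm, mem_mset]
              exact hmem _ (by simp)
            obtain ⟨x', z', hD1⟩ := List.append_of_mem hin
            obtain ⟨e1, e2⟩ := uniq_sl cl hU₁ hD1 h2'
            obtain ⟨e3, e4⟩ := uniq_sl cl hU hx h2
            rw [hs A] at e3
            rw [hl A] at e4
            have e5 : nl cl (word x) = nl cl (word x') := by rw [← e3, ← e1]
            have e6 : nl cl y' = nl cl y := by rw [← e2, ← e4]
            refine ⟨e6, ?_⟩
            intro i hi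
            rw [if_pos h2, List.getElem?_replicate, if_pos hi]
            simp only [Option.join_some, Option.isSome_some, if_true]
            rw [hD1, word_append, word_cons, lt_append, lt_append, e5]
            have e7 : nl cl (word x') + i = (lt cl (word x')).length + i := rfl
            rw [e7, List.getElem?_append_right (by omega)]
            simp only [yl]
            rw [List.getElem?_append_left (by
              show _ < nl cl y'
              omega)]
            congr 1
            omega
          · have h2' : ¬ 2 ≤ nl cl y' := by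
              intro hcon
              unfold cls at hc
              rw [if_neg h2, if_pos hcon] at hc
              simp at hc
            have hlt : lt cl y' = lt cl y := by
              unfold cls at hc
              rw [if_neg h2, if_neg h2', Option.some.injEq] at hc
              rw [lt_of_small cl h2, lt_of_small cl h2', hc]
            refine ⟨by unfold nl; rw [hlt], ?_⟩
            intro i hi
            rw [if_neg h2, List.getElem?_replicate, if_pos hi, hlt]
            simp
        · simp [Rel] at hab
        · simp [Rel] at hab
        · simp only [Rel] at hab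
          subst hab
          refine ⟨rfl, ?_⟩
          intro i hi
          have hi' : i < nl cl [t] := hi
          have hz : (tg cl (Sum.inr t : Elt G))[i]? = some none := by
            simp only [tg]
            rw [List.getElem?_replicate, if_pos hi']
          simp [hz]
      obtain ⟨g1, g2⟩ := hloc
      rw [word_cons, word_cons, lt_append, lt_append, tlist_cons, List.getElem?_append,
        List.getElem?_append, List.getElem?_append, tg_length]
      have g3 : (lt cl (yl b)).length = nl cl (yl a) := g1
      have g4 : (lt cl (yl a)).length = nl cl (yl a) := rfl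
      rw [g3, g4]
      by_cases hi : i < nl cl (yl a)
      · rw [if_pos hi, if_pos hi, if_pos hi]
        exact g2 i hi
      · rw [if_neg hi, if_neg hi, if_neg hi]
        have h3 := ih (x ++ [a]) (by rw [hx]; simp) (fun e he => hmem e (by simp [he]))
          (i - nl cl (yl a))
        rw [h3]
        have h4 : nl cl (word (x ++ [a])) + (i - nl cl (yl a)) = nl cl (word x) + i := by
          have h5 : word (x ++ [a]) = word x ++ yl a := by
            rw [word_append, word_cons]
            simp [word]
          rw [h5, nl_append]
          omega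
        rw [h4]
  have h0 : nl cl (word ([] : List (Elt G))) = 0 := by simp [word, nl, lt]
  have := key D D₂ hR [] rfl (fun e he => he) i
  rw [h0, Nat.zero_add] at this
  exact this

end

/-! ### Rigidity -/

theorem chk_letters (w : List Inp) : ∀ E m σ, chk E m σ w = true →
    dyRun (w.filterMap id) σ = some [] := by
  induction w with
  | nil =>
    intro E m σ h
    simp only [chk, Bool.and_eq_true, List.isEmpty_iff] at h
    simp [dyRun, h.2]
  | cons a w ih =>
    intro E m σ h
    cases a with
    | none =>
      simp only [chk] at h
      simpa using ih _ _ _ h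
    | some x =>
      simp only [chk, Bool.and_eq_true] at h
      rcases h2 : dy x σ with _ | σ'
      · rw [h2] at h; simp at h
      · rw [h2] at h
        simp only [List.filterMap_cons, id, dyRun, h2, Option.bind_some]
        exact ih _ _ _ h.2

theorem okb_iff (E : Option ℕ) (m : ℕ) : okb E m = true ↔ ∀ n, E = some n → n = m := by
  cases E <;> simp [okb]

theorem chk_mono (a : List Inp) : ∀ (b : List Inp) E m σ, chk E m σ (a ++ b) = true →
    ∃ E' m' σ', chk E' m' σ' b = true ∧ ∀ n, E = some n → ∃ n', E' = some n' ∧ n ≤ n' := by
  induction a with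
  | nil => intro b E m σ h; exact ⟨E, m, σ, h, fun n hn => ⟨n, hn, le_refl _⟩⟩
  | cons x a ih =>
    intro b E m σ h
    cases x with
    | none =>
      simp only [List.cons_append, chk] at h
      exact ih _ _ _ _ h
    | some x =>
      simp only [List.cons_append, chk, Bool.and_eq_true] at h
      obtain ⟨h1, h2⟩ := h
      rcases h3 : dy x σ with _ | σ'
      · rw [h3] at h2; simp at h2
      · rw [h3] at h2
        obtain ⟨E', m', σ'', g1, g2⟩ := ih _ _ _ _ h2
        refine ⟨E', m', σ'', g1, ?_⟩
        intro n hn
        obtain ⟨n', g3, g4⟩ := g2 _ rfl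
        rw [okb_iff] at h1
        have := h1 n hn
        exact ⟨n', g3, by omega⟩

theorem chk_nones (n : ℕ) : ∀ (b : List Inp) E m σ,
    chk E m σ (List.replicate n none ++ b) = chk E (m + n) σ b := by
  induction n with
  | zero => intro b E m σ; simp
  | succ n ih =>
    intro b E m σ
    rw [List.replicate_succ, List.cons_append]
    simp only [chk]
    rw [ih]
    congr 1
    omega

theorem chk_block {x x' : Bool × Bool} {n : ℕ} {c : List Inp} {E : Option ℕ} {m : ℕ}
    {σ : List Bool}
    (h : chk E m σ (some x :: (List.replicate n none ++ some x' :: c)) = true) :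
    (∀ k, E = some k → k < n) ∧ ∃ σ', chk (some (n + 1)) 0 σ' c = true := by
  simp only [chk, Bool.and_eq_true] at h
  obtain ⟨h1, h2⟩ := h
  rw [okb_iff] at h1
  rcases h3 : dy x σ with _ | σ'
  · rw [h3] at h2; simp at h2
  · rw [h3] at h2
    simp only at h2
    rw [chk_nones] at h2
    simp only [chk, Bool.and_eq_true, Nat.zero_add] at h2
    obtain ⟨h4, h5⟩ := h2
    rw [okb_some] at h4
    refine ⟨fun k hk => ?_, ?_⟩
    · have := h1 k hk
      omega
    · rcases h6 : dy x' σ' with _ | σ''
      · rw [h6] at h5; simp at h5
      · rw [h6] at h5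
        exact ⟨σ'', h5⟩

theorem rigid {a c u1 u2 u3 a' c' : List Inp} {x x' y y' : Bool × Bool} {n n' : ℕ}
    {v v' : List Inp}
    (hv : v = a ++ some x :: (List.replicate n none ++ some x' :: c))
    (hv' : v' = a' ++ some y :: (List.replicate n' none ++ some y' :: c'))
    (h : chk none 0 [] (u1 ++ (v ++ (u2 ++ (v' ++ u3)))) = true) : n < n' := by
  obtain ⟨E1, m1, σ1, h1, -⟩ := chk_mono _ _ _ _ _ h
  rw [hv, List.append_assoc] at h1
  obtain ⟨E2, m2, σ2, h2, -⟩ := chk_mono _ _ _ _ _ h1
  rw [List.cons_append, List.append_assoc, List.cons_append] at h2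
  obtain ⟨-, σ3, h3⟩ := chk_block h2
  rw [hv'] at h3
  have e : c ++ (u2 ++ (a' ++ some y :: (List.replicate n' none ++ some y' :: c') ++ u3))
    = (c ++ u2 ++ a') ++ (some y :: (List.replicate n' none ++ some y' :: (c' ++ u3))) := by
    simp
  rw [e] at h3
  obtain ⟨E4, m4, σ4, h4, g4⟩ := chk_mono _ _ _ _ _ h3
  obtain ⟨k, hk, hk2⟩ := g4 _ rfl
  obtain ⟨h5, -⟩ := chk_block h4
  have := h5 k hk
  omega

theorem one_letter (y : List Inp) (h : 1 ≤ (y.filterMap id).length) :
    ∃ (n : ℕ) (x : Bool × Bool) (c : List Inp), y = List.replicate n none ++ some x :: c := by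
  induction y with
  | nil => simp at h
  | cons a y ih =>
    cases a with
    | none =>
      obtain ⟨n, x, c, rfl⟩ := ih (by simpa using h)
      exact ⟨n + 1, x, c, by simp [List.replicate_succ]⟩
    | some x => exact ⟨0, x, y, by simp⟩

theorem two_letters (y : List Inp) (h : 2 ≤ (y.filterMap id).length) :
    ∃ (a : List Inp) (x : Bool × Bool) (n : ℕ) (x' : Bool × Bool) (c : List Inp),
      y = a ++ some x :: (List.replicate n none ++ some x' :: c) := by
  induction y with
  | nil => simp at h
  | cons a y ih =>
    cases a with
    | none =>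
      obtain ⟨a, x, n, x', c, rfl⟩ := ih (by simpa using h)
      exact ⟨none :: a, x, n, x', c, by simp⟩
    | some x =>
      obtain ⟨n, x', c, rfl⟩ := one_letter y (by simp at h; simpa using h)
      exact ⟨[], x, n, x', c, by simp⟩

end Pool.Agent.H42CR
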