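import Pool.Agent.H42CR.Fin

/-!
Counting argument and main theorem.
-/

namespace Pool.Agent.H42CR

open Relation

theorem length_le_word {T : Type} {G : ProgGrammar T} (D : List (Elt G))
    (h : ∀ e ∈ D, yl e ≠ []) : D.length ≤ (word D).length := by
  induction D with
  | nil => simp
  | cons a D ih =>
    rw [word_cons, List.length_append, List.length_cons]
    have h1 := ih (fun e he => h e (by simp [he]))
    have h2 : 0 < (yl a).length := List.length_pos_iff.mpr (h a (by simp))
    omega

theorem card_mset_le {T : Type} {G : ProgGrammar T} (D : List (Elt G)) :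
    Multiset.card (mset D) ≤ D.length := by
  unfold mset
  rw [Multiset.coe_card]
  exact List.length_filterMap_le _ _

theorem not_lang (T : Type) (e : Inp ↪ T) (G : ProgGrammar T) (hne : G.NonErasing) :
    G.lang \ {[]} ≠ (List.map e) '' Lng \ {[]} := by
  classical
  intro heq
  have := G.finN
  have := G.finLab
  let : Fintype G.N := Fintype.ofFinite _
  let : Fintype G.Lab := Fintype.ofFinite _
  have hL : ∀ z ∈ G.lang, z ≠ [] → ∃ w ∈ Lng, z = w.map e := by
    intro z hz hz0
    have : z ∈ G.lang \ {[]} := ⟨hz, hz0⟩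
    rw [heq] at this
    obtain ⟨⟨w, hw, rfl⟩, -⟩ := this
    exact ⟨w, hw, rfl⟩
  have hL' : ∀ w ∈ Lng, w ≠ [] → w.map e ∈ G.lang := by
    intro w hw hw0
    have : w.map e ∈ (List.map e) '' Lng \ {[]} := ⟨⟨w, hw, rfl⟩, by simpa using hw0⟩
    rw [← heq] at this
    exact this.1
  obtain ⟨c₀, hc₀⟩ : ∃ c₀, ∀ r, (G.rhs r).length ≤ c₀ :=
    ⟨Finset.univ.sup fun r => (G.rhs r).length, fun r =>
      Finset.le_sup (f := fun r => (G.rhs r).length) (Finset.mem_univ r)⟩
  set cN := Fintype.card G.N with hcN
  set cL := Fintype.card G.Lab with hcL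
  set g := 2 * cN with hg
  set d := 2 * g + 1 with hd
  obtain ⟨j, hj⟩ := exists_exp (14 * cN + 2)
    ((2 * (d + 1) + 2) * (6 * cN) + (d + 1) * (2 * cN + 2) + cL + c₀)
  set m := 2 ^ j with hm
  set k := j + d + 1 with hk
  have hm1 : 1 ≤ m := Nat.one_le_two_pow
  have hmc : c₀ < 2 * m := by
    have : (14 * cN + 2) * j + ((2 * (d + 1) + 2) * (6 * cN) + (d + 1) * (2 * cN + 2) + cL + c₀)
      ≥ c₀ := by omega
    omega
  set N := len m d with hN
  have hNk : N + 2 * m = 2 ^ k := by
    rw [hN, len_eq, hk, hm, ← pow_add]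
    congr 1
  have hN2 : 2 ≤ N := by
    rw [hN, hd]; simp only [len]; omega
  -- the words
  have hul : ∀ u : Fin m → Bool, (List.ofFn u).length = m := fun u => by simp
  set w : (Fin m → Bool) → List Inp := fun u => mk (2 ^ k) (W (List.ofFn u) d) with hw
  have hWlen : ∀ u : Fin m → Bool, (W (List.ofFn u) d).length = N := by
    intro u; rw [W_length, hul]
  have hwL : ∀ u, w u ∈ Lng := by
    intro u
    apply complete
    · intro h0
      have := hWlen u
      rw [h0] at this
      simp at this
      omega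
    · rw [hWlen]; omega
    · exact W_dyck _ _ _
  have hwlen : ∀ u, (w u).length ≤ 2 ^ (2 * k + 1) := by
    intro u
    have h1 := mkT_length (W (List.ofFn u) d) (2 ^ k)
    rw [hWlen] at h1
    have h2 : (w u).length = 2 ^ k + (mkT (2 ^ k) (W (List.ofFn u) d)).length := by
      simp [hw, mk]
    have h3 : 2 ^ (2 * k + 1) = 2 * (2 ^ k * 2 ^ k) := by
      rw [pow_succ, two_mul, pow_add]; ring
    rw [h2, h3]
    have h4 : N + 1 ≤ 2 ^ k := by omega
    nlinarith
  have hlet : ∀ u, lt (clf e) ((w u).map e) = W (List.ofFn u) d := by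
    intro u
    rw [lt_map]
    exact mk_letters _ _
  have hnl : ∀ u, nl (clf e) ((w u).map e) = len m (2 * g + 1) := by
    intro u
    unfold nl
    rw [hlet, hWlen]
  have hw0 : ∀ u, w u ≠ [] := by
    intro u h0
    have h5 := hWlen u
    have h6 := hlet u
    rw [h0] at h6
    rw [← h6] at h5
    simp [lt] at h5
    omega
  have hstage := fun u => stage_exists e hL hc₀ hmc (g := g) (by omega) (hL' _ (hwL u) (hw0 u))
    (hnl u)
  choose D r0 r r' p q h1 h2 h3 h4 using hstage
  have hU : ∀ u, Uniq (clf e) (D u) := fun u => uniq_of_lang e hL (h1 u) (h2 u)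
  have hword : ∀ u, word (D u) = (w u).map e := by
    intro u
    have := word_rtg (h2 u)
    simp only [word_fz] at this
    exact this.symm
  have hcard : ∀ u, Multiset.card (mset (D u)) ≤ 2 ^ (2 * k + 1) := by
    intro u
    have g1 := card_mset_le (D u)
    have g2 := length_le_word (D u) (nonempty_yl hne _ _ (h2 u))
    rw [hword, List.length_map] at g2
    have := hwlen u
    omega
  have hsA : ∀ u A, sA (clf e) (D u) A ≤ N := by
    intro u A
    unfold sA
    refine le_trans List.idxOf_le_length ?_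
    rw [tlist_length, hword, hnl]
  have hlA : ∀ u A, lA (clf e) (D u) A ≤ N := by
    intro u A
    unfold lA
    refine le_trans List.count_le_length ?_
    rw [tlist_length, hword, hnl]
  have hpq : ∀ u, p u ≤ N ∧ q u ≤ N := by
    intro u
    obtain ⟨-, a2, a3, -⟩ := node_bd m d 0 (p u) (q u) (h3 u)
    rw [Nat.zero_add, ← hN] at a2 a3
    exact ⟨by omega, by omega⟩
  -- the profile
  let Φ : (Fin m → Bool) → G.Lab ×
      ((G.N × Option (Option (Bool × Bool))) → Fin (2 ^ (2 * k + 1) + 1)) ×
      (G.N → Fin (N + 1)) × (G.N → Fin (N + 1)) × Fin (N + 1) × Fin (N + 1) := fun u =>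
    (r u, fun c => ⟨Multiset.count c ((mset (D u)).map (ty (clf e))), by
        have g1 := Multiset.count_le_card c ((mset (D u)).map (ty (clf e)))
        rw [Multiset.card_map] at g1
        have := hcard u
        omega⟩,
      fun A => ⟨sA (clf e) (D u) A, by have := hsA u A; omega⟩,
      fun A => ⟨lA (clf e) (D u) A, by have := hlA u A; omega⟩,
      ⟨p u, by have := hpq u; omega⟩, ⟨q u, by have := hpq u; omega⟩)
  have hinj : Function.Injective Φ := by
    intro u u' huu
    simp only [Φ, Prod.mk.injEq] at huu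
    obtain ⟨hr, hc, hs, hl, hp, hq⟩ := huu
    have hmap : (mset (D u')).map (ty (clf e)) = (mset (D u)).map (ty (clf e)) := by
      ext c
      have := congrFun hc c
      simp only [Fin.mk.injEq] at this
      exact this.symm
    obtain ⟨D₂, hm2, hR⟩ := redecorate (clf e) (D u) (mset (D u')) hmap
    have hs' : ∀ A, sA (clf e) (D u) A = sA (clf e) (D u') A := by
      intro A
      have := congrFun hs A
      simpa only [Fin.mk.injEq] using this
    have hl' : ∀ A, lA (clf e) (D u) A = lA (clf e) (D u') A := by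
      intro A
      have := congrFun hl A
      simpa only [Fin.mk.injEq] using this
    simp only [Fin.mk.injEq] at hp hq
    have hhyb := hybrid (clf e) (hU u) (hU u') hs' hl' hm2 hR
    rw [hword, hword, hlet, hlet] at hhyb
    -- the hybrid word is in the language
    have hmem : word D₂ ∈ G.lang := by
      refine ⟨r0 u, r' u', ?_⟩
      have g1 := h1 u
      rw [← rel_und (clf e) hR, hr] at g1
      exact g1.trans (perm _ _ (h2 u') D₂ hm2)
    have hlen2 : (lt (clf e) (word D₂)).length = N := by
      have g1 : ∀ i, (lt (clf e) (word D₂))[i]? = none ↔ N ≤ i := by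
        intro i
        rw [hhyb i]
        by_cases hJ : J (clf e) (D u) i = true
        · rw [if_pos hJ, List.getElem?_eq_none_iff, hWlen]
        · rw [if_neg hJ, List.getElem?_eq_none_iff, hWlen]
      have g2 := (g1 N).mpr (le_refl _)
      rw [List.getElem?_eq_none_iff] at g2
      by_contra hcon
      have g3 : (lt (clf e) (word D₂))[(lt (clf e) (word D₂)).length]? = none := by simp
      rw [g1] at g3
      omega
    have hne2 : word D₂ ≠ [] := by
      intro h0
      rw [h0] at hlen2
      simp [lt] at hlen2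
      omega
    obtain ⟨v, hv, hve⟩ := hL _ hmem hne2
    have hdy := chk_letters v _ _ _ (sound hv)
    rw [← lt_map e v, ← hve] at hdy
    have := hybrid_nodes (List.ofFn u) (List.ofFn u') m d (hul u) (hul u')
      (J (clf e) (D u)) (lt (clf e) (word D₂)) hhyb hdy (h3 u) (h4 u)
    exact List.ofFn_injective this
  have hle := Fintype.card_le_of_injective Φ hinj
  simp only [Fintype.card_prod, Fintype.card_fun, Fintype.card_bool, Fintype.card_fin,
    Fintype.card_option] at hle
  -- numeric contradiction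
  have e1 : 2 ^ (2 * k + 1) + 1 ≤ 2 ^ (2 * k + 2) := by
    have : 1 ≤ 2 ^ (2 * k + 1) := Nat.one_le_two_pow
    have h5 : 2 ^ (2 * k + 2) = 2 * 2 ^ (2 * k + 1) := by rw [pow_succ]; ring
    omega
  have e2 : N + 1 ≤ 2 ^ k := by omega
  have e3 : cL ≤ 2 ^ cL := Nat.lt_two_pow_self.le
  have hbound : 2 ^ m ≤ 2 ^ cL * ((2 ^ (2 * k + 2)) ^ (cN * (2 * 2 + 1 + 1)) *
      ((2 ^ k) ^ cN * ((2 ^ k) ^ cN * (2 ^ k * 2 ^ k)))) := by
    refine le_trans hle ?_
    apply Nat.mul_le_mul e3
    apply Nat.mul_le_mul (Nat.pow_le_pow_left e1 _)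
    apply Nat.mul_le_mul (Nat.pow_le_pow_left e2 _)
    apply Nat.mul_le_mul (Nat.pow_le_pow_left e2 _)
    exact Nat.mul_le_mul e2 e2
  rw [← pow_mul, ← pow_mul, ← pow_add, ← pow_add, ← pow_add, ← pow_add, ← pow_add] at hbound
  have hexp := (Nat.pow_le_pow_iff_right (by norm_num : 1 < 2)).mp hbound
  have : cL + ((2 * k + 2) * (cN * (2 * 2 + 1 + 1)) + (k * cN + (k * cN + (k + k))))
    = (14 * cN + 2) * j + ((2 * (d + 1) + 2) * (6 * cN) + (d + 1) * (2 * cN + 2) + cL) := by
    rw [hk]; ring
  omega

end Pool.Agent.H42CR
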