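import Pool.Agent.H42CR.Cmp

/-!
Nested words following complete binary trees, and the cutwidth argument.
-/

namespace Pool.Agent.H42CR

/-- Length of the word of depth `d` with `m` brackets per node on each side. -/
def len (m : ℕ) : ℕ → ℕ
  | 0 => 0
  | d + 1 => m + (len m d + (len m d + m))

/-- `(p, q)`: the opening brackets of a node occupy `p, ..., p+m-1`, the matching closing ones
`q, q-1, ..., q-m+1`. -/
def IsNode (m : ℕ) : ℕ → ℕ → ℕ → ℕ → Prop
  | 0, _, _, _ => False
  | d + 1, off, p, q => (p = off ∧ q + 1 = off + len m (d + 1)) ∨ IsNode m d (off + m) p q ∨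
      IsNode m d (off + m + len m d) p q

theorem exists_change (f : ℕ → Bool) (i j : ℕ) (hij : i ≤ j) (h : f i ≠ f j) :
    ∃ k, i ≤ k ∧ k < j ∧ f k ≠ f (k + 1) := by
  by_contra hc
  push Not at hc
  apply h
  have : ∀ n, i + n ≤ j → f i = f (i + n) := by
    intro n
    induction n with
    | zero => intro _; rfl
    | succ n ih =>
      intro hn
      rw [ih (by omega)]
      exact hc (i + n) (by omega) (by omega)
  have h2 := this (j - i) (by omega)
  rwa [show i + (j - i) = j by omega] at h2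

/-- two positions in `[a, b]` with different values give a change in `[a, b)` -/
theorem exists_change' (f : ℕ → Bool) (i j a b : ℕ) (hia : a ≤ i) (hib : i ≤ b) (hja : a ≤ j)
    (hjb : j ≤ b) (h : f i ≠ f j) : ∃ k, a ≤ k ∧ k < b ∧ f k ≠ f (k + 1) := by
  rcases le_total i j with hij | hij
  · obtain ⟨k, h1, h2, h3⟩ := exists_change f i j hij h
    exact ⟨k, by omega, by omega, h3⟩
  · obtain ⟨k, h1, h2, h3⟩ := exists_change f j i hij (Ne.symm h)
    exact ⟨k, by omega, by omega, h3⟩

/-- The set of changes of `f` in `[a, b)`. -/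
def chg (f : ℕ → Bool) (a b : ℕ) : Finset ℕ := (Finset.Ico a b).filter fun k => f k ≠ f (k + 1)

theorem mem_chg {f : ℕ → Bool} {a b k : ℕ} :
    k ∈ chg f a b ↔ (a ≤ k ∧ k < b) ∧ f k ≠ f (k + 1) := by
  simp [chg]

theorem exists_of_chg {f : ℕ → Bool} {a b : ℕ} (h : 1 ≤ (chg f a b).card) (v : Bool) :
    ∃ i, a ≤ i ∧ i ≤ b ∧ f i = v := by
  obtain ⟨k, hk⟩ := Finset.card_pos.mp h
  rw [mem_chg] at hk
  obtain ⟨⟨h1, h2⟩, h3⟩ := hk
  by_cases h4 : f k = v
  · exact ⟨k, h1, by omega, h4⟩
  · refine ⟨k + 1, by omega, by omega, ?_⟩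
    cases v <;> cases h5 : f k <;> cases h6 : f (k + 1) <;> simp_all

section
variable {m c₀ : ℕ} {J : ℕ → ℕ → Bool} {T : ℕ}

theorem anti_le (hanti : ∀ t i, J (t + 1) i = true → J t i = true) {t t' i : ℕ} (h : t ≤ t')
    (h' : J t' i = true) : J t i = true := by
  induction h with
  | refl => exact h'
  | step _ ih => exact ih (hanti _ _ h')

theorem anti_false (hanti : ∀ t i, J (t + 1) i = true → J t i = true) {t t' i : ℕ} (h : t ≤ t')
    (h' : J t i = false) : J t' i = false := by
  by_contra hc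
  rw [Bool.not_eq_false] at hc
  rw [anti_le hanti h hc] at h'
  exact absurd h' (by simp)

/-- The extra change outside of the middle grandchild. -/
theorem extra {f : ℕ → Bool} {off L a ℓ j ia ib : ℕ} (hoff : off + j < a)
    (hL : a + ℓ + j < off + L)
    (hag : f (off + j) = f (off + L - 1 - j))
    (hia : f ia = false) (hib : f ib = true)
    (h1 : off ≤ ia) (h2 : ia < off + L) (h3 : off ≤ ib) (h4 : ib < off + L)
    (h5 : ia < a ∨ a + ℓ ≤ ia) (h6 : ib < a ∨ a + ℓ ≤ ib) :
    ∃ k, off ≤ k ∧ k < off + L - 1 ∧ (k + 1 < a ∨ a + ℓ ≤ k) ∧ f k ≠ f (k + 1) := by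
  have left : ∀ i i', off ≤ i → i < a → off ≤ i' → i' < a → f i ≠ f i' →
      ∃ k, off ≤ k ∧ k < off + L - 1 ∧ (k + 1 < a ∨ a + ℓ ≤ k) ∧ f k ≠ f (k + 1) := by
    intro i i' g1 g2 g3 g4 g5
    obtain ⟨k, k1, k2, k3⟩ := exists_change' f i i' off (a - 1) g1 (by omega) g3 (by omega) g5
    exact ⟨k, k1, by omega, by omega, k3⟩
  have right : ∀ i i', a + ℓ ≤ i → i < off + L → a + ℓ ≤ i' → i' < off + L → f i ≠ f i' →
      ∃ k, off ≤ k ∧ k < off + L - 1 ∧ (k + 1 < a ∨ a + ℓ ≤ k) ∧ f k ≠ f (k + 1) := by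
    intro i i' g1 g2 g3 g4 g5
    obtain ⟨k, k1, k2, k3⟩ := exists_change' f i i' (a + ℓ) (off + L - 1) g1 (by omega) g3
      (by omega) g5
    exact ⟨k, by omega, by omega, by omega, k3⟩
  have hne : f ia ≠ f ib := by rw [hia, hib]; simp
  rcases h5 with h5 | h5 <;> rcases h6 with h6 | h6
  · exact left ia ib h1 h5 h3 h6 hne
  · cases hv : f (off + j) with
    | true => exact left ia (off + j) h1 h5 (by omega) hoff (by rw [hia, hv]; simp)
    | false =>
      rw [hv] at hag
      exact right (off + L - 1 - j) ib (by omega) (by omega) h6 h4 (by rw [← hag, hib]; simp)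
  · cases hv : f (off + j) with
    | false => exact left ib (off + j) h3 h6 (by omega) hoff (by rw [hib, hv]; simp)
    | true =>
      rw [hv] at hag
      exact right (off + L - 1 - j) ia (by omega) (by omega) h5 h2 (by rw [← hag, hia]; simp)
  · exact right ia ib h5 h2 h6 h4 hne

theorem cutwidth (hm : c₀ < 2 * m) (hanti : ∀ t i, J (t + 1) i = true → J t i = true)
    (hstep : ∀ t (A : Finset ℕ), (∀ i ∈ A, J t i = true ∧ J (t + 1) i = false) → A.card ≤ c₀) :
    ∀ g off, (∀ i, off ≤ i → i < off + len m (2 * g + 1) → J 0 i = true) →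
      (∀ i, off ≤ i → i < off + len m (2 * g + 1) → J T i = false) →
      (∀ t p q, IsNode m (2 * g + 1) off p q → ∃ j < m, J t (p + j) = J t (q - j)) →
      ∃ t, g + 1 ≤ (chg (J t) off (off + len m (2 * g + 1) - 1)).card := by
  intro g
  induction g with
  | zero =>
    intro off h0 hT _
    simp only [Nat.mul_zero, Nat.zero_add, len, Nat.add_zero] at h0 hT ⊢
    -- the first stage where the span is not full
    have hex : ∃ t i, off ≤ i ∧ i < off + (m + m) ∧ J t i = false :=
      ⟨T, off, le_refl _, by omega, hT off (le_refl _) (by omega)⟩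
    classical
    have hfind := Nat.find_spec hex
    set t := Nat.find hex with ht
    obtain ⟨i, hi1, hi2, hi3⟩ := hfind
    have hpos : t ≠ 0 := by
      intro h
      rw [h, h0 i hi1 hi2] at hi3
      exact absurd hi3 (by simp)
    obtain ⟨t', ht'⟩ := Nat.exists_eq_succ_of_ne_zero hpos
    have hfull : ∀ i, off ≤ i → i < off + (m + m) → J t' i = true := by
      intro i g1 g2
      by_contra hc
      rw [Bool.not_eq_true] at hc
      exact Nat.find_min hex (m := t') (by omega) ⟨i, g1, g2, hc⟩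
    have hnot : ∃ j, off ≤ j ∧ j < off + (m + m) ∧ J t j = true := by
      by_contra hc
      push Not at hc
      have := hstep t' (Finset.Ico off (off + (m + m))) (by
        intro i hi
        rw [Finset.mem_Ico] at hi
        refine ⟨hfull i hi.1 hi.2, ?_⟩
        have := hc i hi.1 hi.2
        rw [ht'] at this
        simpa using this)
      simp at this
      omega
    obtain ⟨j, hj1, hj2, hj3⟩ := hnot
    obtain ⟨k, k1, k2, k3⟩ := exists_change' (J t) i j off (off + (m + m) - 1) hi1 (by omega) hj1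
      (by omega) (by rw [hi3, hj3]; simp)
    refine ⟨t, ?_⟩
    have : 0 < (chg (J t) off (off + (m + m) - 1)).card :=
      Finset.card_pos.mpr ⟨k, mem_chg.mpr ⟨⟨k1, k2⟩, k3⟩⟩
    omega
  | succ g ih =>
    intro off h0 hT hag
    set ℓ := len m (2 * g + 1) with hℓ
    have hm0 : 0 < m := by omega
    have hℓm : 0 < ℓ := by
      rw [hℓ]; simp only [len]; omega
    have e2 : len m (2 * g + 2) = m + (ℓ + (ℓ + m)) := rfl
    have e3 : len m (2 * (g + 1) + 1) = m + (len m (2 * g + 2) + (len m (2 * g + 2) + m)) := rfl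
    rw [e2] at e3
    set L := len m (2 * (g + 1) + 1) with hLdef
    -- nodes of the grandchildren
    have hn : ∀ a, a = off + m + m ∨ a = off + m + m + ℓ ∨ a = off + m + len m (2 * g + 2) + m →
        ∀ p q, IsNode m (2 * g + 1) a p q → IsNode m (2 * (g + 1) + 1) off p q := by
      intro a ha p q hpq
      have h1 : IsNode m (2 * (g + 1) + 1) off p q ↔
        ((p = off ∧ q + 1 = off + len m (2 * (g + 1) + 1)) ∨
          IsNode m (2 * g + 2) (off + m) p q ∨
          IsNode m (2 * g + 2) (off + m + len m (2 * g + 2)) p q) := Iff.rfl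
      have h2 : ∀ o, IsNode m (2 * g + 2) o p q ↔
        ((p = o ∧ q + 1 = o + len m (2 * g + 2)) ∨
          IsNode m (2 * g + 1) (o + m) p q ∨
          IsNode m (2 * g + 1) (o + m + len m (2 * g + 1)) p q) := fun o => Iff.rfl
      rw [h1, h2, h2]
      rcases ha with ha | ha | ha
      · subst ha
        exact Or.inr (Or.inl (Or.inr (Or.inl hpq)))
      · subst ha
        exact Or.inr (Or.inl (Or.inr (Or.inr hpq)))
      · subst ha
        exact Or.inr (Or.inr (Or.inr (Or.inl hpq)))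
    have hget : ∀ a, a = off + m + m ∨ a = off + m + m + ℓ ∨ a = off + m + len m (2 * g + 2) + m →
        ∃ t, g + 1 ≤ (chg (J t) a (a + ℓ - 1)).card := by
      intro a ha
      apply ih a
      · intro i hi1 hi2
        apply h0 i <;> rw [e2] at ha <;> omega
      · intro i hi1 hi2
        apply hT i <;> rw [e2] at ha <;> omega
      · intro t p q hpq
        exact hag t p q (hn a ha p q hpq)
    -- the general combination
    have comb : ∀ a ta tb t b1 b2, 
        (a = off + m + m ∨ a = off + m + m + ℓ ∨ a = off + m + len m (2 * g + 2) + m) →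
        (b1 = off + m + m ∨ b1 = off + m + m + ℓ ∨ b1 = off + m + len m (2 * g + 2) + m) →
        (b2 = off + m + m ∨ b2 = off + m + m + ℓ ∨ b2 = off + m + len m (2 * g + 2) + m) →
        a ≠ b1 → a ≠ b2 → ta ≤ t → t ≤ tb →
        g + 1 ≤ (chg (J t) a (a + ℓ - 1)).card →
        g + 1 ≤ (chg (J ta) b1 (b1 + ℓ - 1)).card →
        g + 1 ≤ (chg (J tb) b2 (b2 + ℓ - 1)).card →
        g + 1 + 1 ≤ (chg (J t) off (off + L - 1)).card := by
      intro a ta tb t b1 b2 ha hb1 hb2 hne1 hne2 hta htb c1 c2 c3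
      rw [e2] at ha hb1 hb2
      obtain ⟨ia, ia1, ia2, ia3⟩ := exists_of_chg (le_trans (by omega) c2) false
      obtain ⟨ib, ib1, ib2, ib3⟩ := exists_of_chg (le_trans (by omega) c3) true
      have ia4 := anti_false hanti hta ia3
      have ib4 := anti_le hanti htb ib3
      obtain ⟨j, hj, hjag⟩ := hag t off (off + L - 1) (Or.inl ⟨rfl, by omega⟩)
      obtain ⟨k, k1, k2, k3, k4⟩ := extra (f := J t) (off := off) (L := L) (a := a) (ℓ := ℓ)
        (j := j) (ia := ia) (ib := ib) (by omega) (by omega) hjag ia4 ib4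
        (by omega) (by omega) (by omega) (by omega) (by omega) (by omega)
      have hk : k ∉ chg (J t) a (a + ℓ - 1) := by
        rw [mem_chg]
        rintro ⟨⟨g1, g2⟩, -⟩
        omega
      have hsub : insert k (chg (J t) a (a + ℓ - 1)) ⊆ chg (J t) off (off + L - 1) := by
        intro x hx
        rw [Finset.mem_insert] at hx
        rcases hx with rfl | hx
        · exact mem_chg.mpr ⟨⟨k1, k2⟩, k4⟩
        · rw [mem_chg] at hx ⊢
          exact ⟨⟨by omega, by omega⟩, hx.2⟩
      have := Finset.card_le_card hsub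
      rw [Finset.card_insert_of_notMem hk] at this
      omega
    obtain ⟨t1, c1⟩ := hget _ (Or.inl rfl)
    obtain ⟨t2, c2⟩ := hget _ (Or.inr (Or.inl rfl))
    obtain ⟨t3, c3⟩ := hget _ (Or.inr (Or.inr rfl))
    have n12 : off + m + m ≠ off + m + m + ℓ := by omega
    have n13 : off + m + m ≠ off + m + len m (2 * g + 2) + m := by rw [e2]; omega
    have n23 : off + m + m + ℓ ≠ off + m + len m (2 * g + 2) + m := by rw [e2]; omega
    rcases le_total t1 t2 with h12 | h12 <;> rcases le_total t2 t3 with h23 | h23 <;>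
      rcases le_total t1 t3 with h13 | h13
    · exact ⟨t2, comb _ t1 t3 t2 _ _ (Or.inr (Or.inl rfl)) (Or.inl rfl) (Or.inr (Or.inr rfl))
        n12.symm n23 h12 h23 c2 c1 c3⟩
    · exact ⟨t2, comb _ t1 t3 t2 _ _ (Or.inr (Or.inl rfl)) (Or.inl rfl) (Or.inr (Or.inr rfl))
        n12.symm n23 h12 h23 c2 c1 c3⟩
    · exact ⟨t3, comb _ t1 t2 t3 _ _ (Or.inr (Or.inr rfl)) (Or.inl rfl) (Or.inr (Or.inl rfl))
        n13.symm n23.symm h13 h23 c3 c1 c2⟩
    · exact ⟨t1, comb _ t3 t2 t1 _ _ (Or.inl rfl) (Or.inr (Or.inr rfl)) (Or.inr (Or.inl rfl))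
        n13 n12 h13 h12 c1 c3 c2⟩
    · exact ⟨t1, comb _ t2 t3 t1 _ _ (Or.inl rfl) (Or.inr (Or.inl rfl)) (Or.inr (Or.inr rfl))
        n12 n13 h12 h13 c1 c2 c3⟩
    · exact ⟨t3, comb _ t2 t1 t3 _ _ (Or.inr (Or.inr rfl)) (Or.inr (Or.inl rfl)) (Or.inl rfl)
        n23.symm n13.symm h23 h13 c3 c2 c1⟩
    · exact ⟨t2, comb _ t3 t1 t2 _ _ (Or.inr (Or.inl rfl)) (Or.inr (Or.inr rfl)) (Or.inl rfl)
        n23 n12.symm h23 h12 c2 c3 c1⟩
    · exact ⟨t2, comb _ t3 t1 t2 _ _ (Or.inr (Or.inl rfl)) (Or.inr (Or.inr rfl)) (Or.inl rfl)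
        n23 n12.symm h23 h12 c2 c3 c1⟩

end

end Pool.Agent.H42CR
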