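import Pool.Agent.H42CR.Gram
import Pool.Agent.H42CR.Tree

/-!
Large yields, their positions, and the replacement of yields.
-/

namespace Pool.Agent.H42CR

open Relation

section
variable {T : Type} {G : ProgGrammar T} (cl : T → Option (Bool × Bool))

/-- letters of a word -/
def lt (y : List T) : List (Bool × Bool) := y.filterMap cl

/-- number of letters -/
def nl (y : List T) : ℕ := (lt cl y).length

theorem lt_append (x y : List T) : lt cl (x ++ y) = lt cl x ++ lt cl y := by simp [lt]
theorem nl_append (x y : List T) : nl cl (x ++ y) = nl cl x + nl cl y := by simp [nl, lt_append]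

open Classical in
/-- For each letter of the yield: the nonterminal if the yield is large. -/
noncomputable def tg : Elt G → List (Option G.N)
  | Sum.inl p => List.replicate (nl cl p.2) (if 2 ≤ nl cl p.2 then some p.1 else none)
  | Sum.inr t => List.replicate (nl cl [t]) none

noncomputable def tlist (D : List (Elt G)) : List (Option G.N) := D.flatMap (tg cl)

theorem tg_length (e : Elt G) : (tg cl e).length = nl cl (yl e) := by
  cases e <;> simp [tg, yl]

theorem tlist_append (x y : List (Elt G)) : tlist cl (x ++ y) = tlist cl x ++ tlist cl y := by
  simp [tlist]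

theorem tlist_cons (e : Elt G) (y : List (Elt G)) :
    tlist cl (e :: y) = tg cl e ++ tlist cl y := by
  simp [tlist]

theorem tlist_length (D : List (Elt G)) : (tlist cl D).length = nl cl (word D) := by
  induction D with
  | nil => simp [tlist, word, nl, lt]
  | cons e D ih =>
    rw [tlist_cons, word_cons, List.length_append, nl_append, ih, tg_length]

/-- Position `i` is in a large yield. -/
noncomputable def J (D : List (Elt G)) (i : ℕ) : Bool := ((tlist cl D)[i]?.join).isSome

theorem J_iff {D : List (Elt G)} {i : ℕ} :
    J cl D i = true ↔ ∃ A, (tlist cl D)[i]? = some (some A) := by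
  unfold J
  rcases (tlist cl D)[i]? with _ | _ | A <;> simp

theorem nl_single (t : T) : nl cl [t] ≤ 1 := by
  unfold nl lt
  rw [List.filterMap_cons]
  cases cl t <;> simp

/-- members of the tag list -/
theorem mem_tlist {D : List (Elt G)} {A : G.N} (h : some A ∈ tlist cl D) :
    ∃ y, Sum.inl (A, y) ∈ D ∧ 2 ≤ nl cl y := by
  simp only [tlist, List.mem_flatMap] at h
  obtain ⟨e, he, hA⟩ := h
  cases e with
  | inl p =>
    obtain ⟨B, y⟩ := p
    simp only [tg, List.mem_replicate] at hA
    by_cases h2 : 2 ≤ nl cl y
    · rw [if_pos h2] at hA
      have : A = B := by simpa using hA.2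
      subst this
      exact ⟨y, he, h2⟩
    · rw [if_neg h2] at hA
      simp at hA
  | inr t =>
    simp only [tg, List.mem_replicate] at hA
    simp at hA

theorem word_large {D : List (Elt G)} {e : Elt G} (he : e ∈ D) : nl cl (yl e) ≤ nl cl (word D) := by
  obtain ⟨x, y, rfl⟩ := List.append_of_mem he
  rw [word_append, word_cons, nl_append, nl_append]
  omega

/-- number of `none` tags in a form is at most its length -/
theorem count_none (W : List (Elt G)) :
    (tlist cl W).countP (fun o => o.isNone) ≤ W.length := by
  induction W with
  | nil => simp [tlist]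
  | cons e W ih =>
    rw [tlist_cons, List.countP_append, List.length_cons]
    have : (tg cl e).countP (fun o => o.isNone) ≤ 1 := by
      cases e with
      | inl p =>
        simp only [tg]
        by_cases h2 : 2 ≤ nl cl p.2
        · rw [if_pos h2, List.countP_replicate]; simp
        · rw [if_neg h2, List.countP_replicate]; simp; omega
      | inr t =>
        simp only [tg]
        rw [List.countP_replicate]
        simp
        exact nl_single cl t
    omega

theorem card_le_count {α : Type*} (l : List (Option α)) : ∀ A : Finset ℕ,
    (∀ i ∈ A, l[i]? = some none) → A.card ≤ l.countP (fun o => o.isNone) := by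
  induction l with
  | nil =>
    intro A hA
    have : A = ∅ := by
      apply Finset.eq_empty_of_forall_notMem
      intro i hi
      have := hA i hi
      simp at this
    subst this
    simp
  | cons a l ih =>
    intro A hA
    have h1 := ih ((A.erase 0).image Nat.pred) (by
      intro i hi
      simp only [Finset.mem_image, Finset.mem_erase] at hi
      obtain ⟨k, ⟨hk0, hk⟩, rfl⟩ := hi
      have := hA k hk
      obtain ⟨k', rfl⟩ := Nat.exists_eq_succ_of_ne_zero hk0
      simpa using this)
    rw [Finset.card_image_of_injOn (by
      intro x hx y hy hxy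
      simp only [Finset.coe_erase, Set.mem_sdiff, Finset.mem_coe, Set.mem_singleton_iff] at hx hy
      have := Nat.pred_inj (Nat.pos_of_ne_zero hx.2) (Nat.pos_of_ne_zero hy.2) hxy
      exact this)] at h1
    rw [List.countP_cons]
    by_cases h0 : 0 ∈ A
    · have h2 := hA 0 h0
      simp only [List.getElem?_cons_zero, Option.some.injEq] at h2
      subst h2
      rw [Finset.card_erase_of_mem h0] at h1
      simp
      omega
    · rw [Finset.erase_eq_of_notMem h0] at h1
      omega

/-- effect of a step on the tags -/
theorem step_tags {a b : List (Elt G) × G.Lab} (h : DDer a b) :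
    (∀ i, J cl b.1 i = true → J cl a.1 i = true) ∧
    ∀ A : Finset ℕ, (∀ i ∈ A, J cl a.1 i = true ∧ J cl b.1 i = false) →
      A.card ≤ (G.rhs a.2).length := by
  cases h with
  | app x y W r r' h1 h2 =>
    have hlen : (tlist cl W).length = nl cl (word W) := tlist_length cl W
    have ha : tlist cl (x ++ [Sum.inl (G.lhs r, word W)] ++ y : List (Elt G))
        = tlist cl x ++ (List.replicate (nl cl (word W))
          (if 2 ≤ nl cl (word W) then some (G.lhs r) else none) ++ tlist cl y) := by
      simp [tlist, tg]
    have hb : tlist cl (x ++ W ++ y : List (Elt G))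
        = tlist cl x ++ (tlist cl W ++ tlist cl y) := by
      simp [tlist]
    constructor
    · intro i hi
      rw [J_iff] at hi ⊢
      simp only at hi ⊢
      rw [ha]
      rw [hb] at hi
      rw [List.getElem?_append] at hi ⊢
      by_cases c1 : i < (tlist cl x).length
      · rw [if_pos c1] at hi ⊢
        exact hi
      · rw [if_neg c1] at hi ⊢
        rw [List.getElem?_append] at hi ⊢
        rw [List.length_replicate]
        rw [hlen] at hi
        by_cases c2 : i - (tlist cl x).length < nl cl (word W)
        · rw [if_pos c2] at hi ⊢
          obtain ⟨B, hB⟩ := hi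
          obtain ⟨z, hz, hz2⟩ := mem_tlist cl (List.mem_of_getElem? hB)
          have := word_large cl hz
          simp only [yl] at this
          refine ⟨G.lhs r, ?_⟩
          rw [List.getElem?_replicate, if_pos c2, if_pos (by omega)]
        · rw [if_neg c2] at hi ⊢
          exact hi
    · intro A hA
      simp only at hA ⊢
      have hsub : ∀ i ∈ A, (tlist cl x).length ≤ i ∧ (tlist cl W)[i - (tlist cl x).length]? = some none := by
        intro i hi
        obtain ⟨g1, g2⟩ := hA i hi
        rw [J_iff, ha, List.getElem?_append] at g1
        unfold J at g2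
        rw [hb, List.getElem?_append] at g2
        by_cases c1 : i < (tlist cl x).length
        · rw [if_pos c1] at g1 g2
          obtain ⟨B, hB⟩ := g1
          rw [hB] at g2
          simp at g2
        · rw [if_neg c1] at g1 g2
          refine ⟨by omega, ?_⟩
          rw [List.getElem?_append] at g1 g2
          rw [List.length_replicate] at g1
          rw [hlen] at g2
          by_cases c2 : i - (tlist cl x).length < nl cl (word W)
          · rw [if_pos c2] at g2
            have c3 : i - (tlist cl x).length < (tlist cl W).length := by rw [hlen]; exact c2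
            rw [List.getElem?_eq_getElem c3] at g2 ⊢
            congr 1
            cases hq : (tlist cl W)[i - (tlist cl x).length] with
            | none => rfl
            | some B => rw [hq] at g2; simp at g2
          · rw [if_neg c2] at g1 g2
            obtain ⟨B, hB⟩ := g1
            rw [hB] at g2
            simp at g2
      have h3 := card_le_count (tlist cl W) (A.image fun i => i - (tlist cl x).length) (by
        intro k hk
        simp only [Finset.mem_image] at hk
        obtain ⟨i, hi, rfl⟩ := hk
        exact (hsub i hi).2)
      rw [Finset.card_image_of_injOn (by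
        intro i hi j hj hij
        have g1 := (hsub i hi).1
        have g2 := (hsub j hj).1
        simp only at hij
        omega)] at h3
      have h4 := count_none cl W
      have h5 : W.length = (G.rhs r).length := by rw [← h2]; simp [und]
      omega
  | chk x r r' h1 h2 =>
    refine ⟨fun i hi => hi, fun A hA => ?_⟩
    have : A = ∅ := by
      apply Finset.eq_empty_of_forall_notMem
      intro i hi
      obtain ⟨g1, g2⟩ := hA i hi
      simp only at g1 g2
      rw [g1] at g2
      simp at g2
    subst this
    simp

/-- At most one large yield per nonterminal. -/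
def Uniq (D : List (Elt G)) : Prop :=
  ∀ x A y1 z y2 w, D = x ++ Sum.inl (A, y1) :: (z ++ Sum.inl (A, y2) :: w) →
    2 ≤ nl cl y1 → 2 ≤ nl cl y2 → False

open Classical in
noncomputable def sA (D : List (Elt G)) (A : G.N) : ℕ := (tlist cl D).idxOf (some A)

open Classical in
noncomputable def lA (D : List (Elt G)) (A : G.N) : ℕ := (tlist cl D).count (some A)

theorem uniq_split {D x z : List (Elt G)} {A : G.N} {y : List T} (hU : Uniq cl D)
    (hD : D = x ++ Sum.inl (A, y) :: z) (hy : 2 ≤ nl cl y) :
    some A ∉ tlist cl x ∧ some A ∉ tlist cl z := by
  constructor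
  · intro h
    obtain ⟨y', hy', h2⟩ := mem_tlist cl h
    obtain ⟨x1, x2, rfl⟩ := List.append_of_mem hy'
    exact hU x1 A y' x2 y z (by rw [hD]; simp) h2 hy
  · intro h
    obtain ⟨y', hy', h2⟩ := mem_tlist cl h
    obtain ⟨x1, x2, rfl⟩ := List.append_of_mem hy'
    exact hU x A y x1 y' x2 hD hy h2

theorem tlist_split (x z : List (Elt G)) (A : G.N) {y : List T} (hy : 2 ≤ nl cl y) :
    tlist cl (x ++ Sum.inl (A, y) :: z)
      = tlist cl x ++ (List.replicate (nl cl y) (some A) ++ tlist cl z) := by
  rw [tlist_append, tlist_cons]
  simp only [tg]
  rw [if_pos hy]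

theorem uniq_sl {D x z : List (Elt G)} {A : G.N} {y : List T} (hU : Uniq cl D)
    (hD : D = x ++ Sum.inl (A, y) :: z) (hy : 2 ≤ nl cl y) :
    sA cl D A = nl cl (word x) ∧ lA cl D A = nl cl y := by
  classical
  obtain ⟨h1, h2⟩ := uniq_split cl hU hD hy
  constructor
  · unfold sA
    rw [hD, tlist_split cl x z A hy, List.idxOf_append_of_notMem h1]
    obtain ⟨n, hn⟩ : ∃ n, nl cl y = n + 1 := ⟨nl cl y - 1, by omega⟩
    rw [hn, List.replicate_succ, List.cons_append, List.idxOf_cons_self, Nat.add_zero,
      tlist_length]
  · unfold lA
    rw [hD, tlist_split cl x z A hy, List.count_append, List.count_append,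
      List.count_eq_zero_of_not_mem h1, List.count_eq_zero_of_not_mem h2,
      List.count_replicate_self]
    omega

theorem uniq_interval {D : List (Elt G)} (hU : Uniq cl D) (A : G.N) (i : ℕ) :
    (tlist cl D)[i]? = some (some A) ↔ sA cl D A ≤ i ∧ i < sA cl D A + lA cl D A := by
  classical
  by_cases h : some A ∈ tlist cl D
  · obtain ⟨y, hy, hy2⟩ := mem_tlist cl h
    obtain ⟨x, z, hD⟩ := List.append_of_mem hy
    obtain ⟨h1, h2⟩ := uniq_split cl hU hD hy2
    obtain ⟨e1, e2⟩ := uniq_sl cl hU hD hy2
    rw [e1, e2, hD, tlist_split cl x z A hy2, ← tlist_length cl x]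
    constructor
    · intro h3
      rw [List.getElem?_append] at h3
      split_ifs at h3 with c1
      · exact absurd (List.mem_of_getElem? h3) h1
      · rw [List.getElem?_append, List.length_replicate] at h3
        split_ifs at h3 with c2
        · omega
        · exact absurd (List.mem_of_getElem? h3) h2
    · rintro ⟨g1, g2⟩
      rw [List.getElem?_append_right g1, List.getElem?_append_left (by simp; omega),
        List.getElem?_replicate, if_pos (by omega)]
  · constructor
    · intro h3
      exact absurd (List.mem_of_getElem? h3) h
    · rintro ⟨g1, g2⟩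
      have : lA cl D A = 0 := by
        unfold lA
        exact List.count_eq_zero_of_not_mem h
      omega

theorem chg_le [Fintype G.N] {D : List (Elt G)} (hU : Uniq cl D) (b : ℕ) :
    (chg (J cl D) 0 b).card ≤ 2 * Fintype.card G.N := by
  classical
  have hsub : chg (J cl D) 0 b ⊆ (Finset.univ.image fun A => sA cl D A - 1) ∪
      (Finset.univ.image fun A => sA cl D A + lA cl D A - 1) := by
    intro k hk
    rw [mem_chg] at hk
    obtain ⟨-, hk⟩ := hk
    rw [Finset.mem_union, Finset.mem_image, Finset.mem_image]
    have hJ : ∀ i, J cl D i = true ↔ ∃ A, sA cl D A ≤ i ∧ i < sA cl D A + lA cl D A := by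
      intro i
      rw [J_iff]
      simp only [uniq_interval cl hU]
    by_cases h1 : J cl D k = true
    · right
      have h2 : ¬ J cl D (k + 1) = true := by
        intro h2; rw [h1, h2] at hk; exact hk rfl
      rw [hJ] at h1 h2
      obtain ⟨A, a1, a2⟩ := h1
      push Not at h2
      have := h2 A (by omega)
      exact ⟨A, Finset.mem_univ _, by omega⟩
    · left
      have h2 : J cl D (k + 1) = true := by
        cases h3 : J cl D k <;> cases h4 : J cl D (k + 1) <;> simp_all
      rw [hJ] at h1 h2
      obtain ⟨A, a1, a2⟩ := h2
      push Not at h1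
      have h5 : ¬ sA cl D A ≤ k := by
        intro h6
        have := h1 A h6
        omega
      exact ⟨A, Finset.mem_univ _, by omega⟩
  refine le_trans (Finset.card_le_card hsub) (le_trans (Finset.card_union_le _ _) ?_)
  have h1 : (Finset.univ.image fun A => sA cl D A - 1).card ≤ Fintype.card G.N :=
    Finset.card_image_le
  have h2 : (Finset.univ.image fun A => sA cl D A + lA cl D A - 1).card ≤ Fintype.card G.N :=
    Finset.card_image_le
  omega

end

end Pool.Agent.H42CR
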