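import Pool.Agent.H42CR.Defs

/-!
The concrete string-rewriting system: symbols, rules, no overlaps, confluence.
-/

namespace Pool.Agent.H42CR

open Relation

/-- Symbols of the system. -/
inductive Sy
  | f (τ : Bool)
  | X (τ c : Bool) (x : Bool × Bool)
  | R (τ e : Bool)
  | D (τ : Bool)
  | sl (b : Bool)
  | cent
  | dol (τ : Bool)
  | Y
  deriving DecidableEq, Fintype

open Sy

/-- Rules of the system. -/
inductive Rule : List Sy → List Sy → Prop
  | L1 (τ e : Bool) : Rule [R τ e, f τ, f τ] [f (!τ), R τ e]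
  | L2 (τ c : Bool) (x : Bool × Bool) : Rule [R τ true, f τ, X τ c x] [X (!τ) c x, R τ (!c)]
  | L3 (τ c : Bool) (x : Bool × Bool) :
      Rule [R τ false, X τ c x, f τ, f τ] [X (!τ) false x, f (!τ), R τ c]
  | L4 (τ : Bool) : Rule [R τ false, dol τ] [dol (!τ)]
  | L5 (τ : Bool) : Rule [R τ true, f τ, dol τ] [dol (!τ)]
  | S1 (τ : Bool) : Rule [cent, f τ, f τ, f τ, f τ] [cent, f (!τ), f (!τ), R τ false]
  | S2 (τ c : Bool) (x : Bool × Bool) :
      Rule [cent, f τ, f τ, X τ c x, f τ, f τ] [cent, f (!τ), X (!τ) false x, f (!τ), R τ c]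
  | S3 (τ b : Bool) : Rule [cent, f τ, X τ false (true, b), f τ] [cent, sl b, D τ]
  | D1 (τ b : Bool) : Rule [D τ, X τ false (true, b), f τ] [sl b, D τ]
  | D2 (τ b : Bool) : Rule [sl b, D τ, X τ false (false, b), f τ] [D τ]
  | D3 (τ : Bool) : Rule [cent, D τ, dol τ] [Y]

/-- The system as a set. -/
def sys : Set (List Sy × List Sy) := {p | Rule p.1 p.2}

theorem rule_len {l r : List Sy} (h : Rule l r) : r.length < l.length := by
  cases h <;> simp

theorem rule_len6 {l r : List Sy} (h : Rule l r) : l.length ≤ 6 := by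
  cases h <;> simp

theorem sys_finite : sys.Finite := by
  have h : sys ⊆ {l : List Sy | l.length ≤ 6} ×ˢ {l : List Sy | l.length ≤ 6} := by
    rintro ⟨l, r⟩ hp
    have hp' : Rule l r := hp
    refine ⟨rule_len6 hp', ?_⟩
    have := rule_len hp'
    have := rule_len6 hp'
    show r.length ≤ 6
    omega
  exact Set.Finite.subset ((List.finite_length_le Sy 6).prod (List.finite_length_le Sy 6)) h

theorem overlap {l₁ r₁ l₂ r₂ : List Sy} (h₁ : Rule l₁ r₁) (h₂ : Rule l₂ r₂) :
    ∀ k v₁ v₂, k < l₁.length → l₁.drop k ++ v₁ = l₂ ++ v₂ → k = 0 ∧ l₁ = l₂ ∧ r₁ = r₂ := by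
  cases h₁ <;> cases h₂ <;> intro k v₁ v₂ hk h <;> simp only [List.length_cons, List.length_nil] at hk <;>
    interval_cases k <;> simp_all

/-- Two one-step reducts are equal or have a common one-step reduct. -/
theorem diamond {u v w : List Sy} (h₁ : Step sys u v) (h₂ : Step sys u w) :
    v = w ∨ ∃ z, Step sys v z ∧ Step sys w z := by
  obtain ⟨x₁, y₁, l₁, r₁, hr₁, hu₁, hv₁⟩ := h₁
  obtain ⟨x₂, y₂, l₂, r₂, hr₂, hu₂, hv₂⟩ := h₂
  have hr₁' : Rule l₁ r₁ := hr₁
  have hr₂' : Rule l₂ r₂ := hr₂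
  -- a one-sided version
  have key : ∀ x₁ y₁ l₁ r₁ x₂ y₂ l₂ r₂ : List Sy, Rule l₁ r₁ → Rule l₂ r₂ →
      x₁ ++ l₁ ++ y₁ = x₂ ++ l₂ ++ y₂ → x₁.length ≤ x₂.length →
      x₁ ++ r₁ ++ y₁ = x₂ ++ r₂ ++ y₂ ∨
        ∃ z, Step sys (x₁ ++ r₁ ++ y₁) z ∧ Step sys (x₂ ++ r₂ ++ y₂) z := by
    intro x₁ y₁ l₁ r₁ x₂ y₂ l₂ r₂ h1 h2 he hl
    -- x₂ = x₁ ++ t
    have hx : ∃ t, x₂ = x₁ ++ t := by
      have : x₁ <+: x₂ := by
        apply List.prefix_of_prefix_length_le (l₃ := x₁ ++ l₁ ++ y₁) _ _ hl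
        · rw [List.append_assoc]; exact List.prefix_append _ _
        · rw [he, List.append_assoc]; exact List.prefix_append _ _
      obtain ⟨t, ht⟩ := this
      exact ⟨t, ht.symm⟩
    obtain ⟨t, rfl⟩ := hx
    have he' : l₁ ++ y₁ = t ++ l₂ ++ y₂ := by
      have : x₁ ++ (l₁ ++ y₁) = x₁ ++ (t ++ l₂ ++ y₂) := by simpa using he
      exact List.append_cancel_left this
    rcases lt_or_ge t.length l₁.length with hlt | hge
    · -- overlapping
      have htp : t = l₁.take t.length := by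
        have := congrArg (List.take t.length) he'
        rw [List.take_append_of_le_length hlt.le, List.append_assoc, List.take_left'] at this
        · exact this.symm
        · rfl
      have hd : l₁.drop t.length ++ y₁ = l₂ ++ y₂ := by
        have := congrArg (List.drop t.length) he'
        rw [List.drop_append_of_le_length hlt.le, List.append_assoc, List.drop_left'] at this
        · exact this
        · rfl
      obtain ⟨h0, h1', h2'⟩ := overlap h1 h2 t.length y₁ y₂ hlt hd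
      have ht0 : t = [] := List.length_eq_zero_iff.mp h0
      subst ht0
      subst h1'
      subst h2'
      left
      simp at hd
      simp [hd]
    · -- disjoint
      have ht : ∃ t', t = l₁ ++ t' := by
        have : l₁ <+: t := by
          apply List.prefix_of_prefix_length_le (l₃ := l₁ ++ y₁) _ _ hge
          · exact List.prefix_append _ _
          · rw [he', List.append_assoc]; exact List.prefix_append _ _
        obtain ⟨t', ht⟩ := this
        exact ⟨t', ht.symm⟩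
      obtain ⟨t', rfl⟩ := ht
      have hy : y₁ = t' ++ l₂ ++ y₂ := by
        have : l₁ ++ y₁ = l₁ ++ (t' ++ l₂ ++ y₂) := by simpa using he'
        exact List.append_cancel_left this
      subst hy
      right
      refine ⟨x₁ ++ r₁ ++ t' ++ r₂ ++ y₂, ?_, ?_⟩
      · exact ⟨x₁ ++ r₁ ++ t', y₂, l₂, r₂, h2, by simp, by simp⟩
      · exact ⟨x₁, t' ++ r₂ ++ y₂, l₁, r₁, h1, by simp, by simp⟩
  subst hv₁ hv₂
  have he : x₁ ++ l₁ ++ y₁ = x₂ ++ l₂ ++ y₂ := hu₁.symm.trans hu₂
  rcases le_total x₁.length x₂.length with hl | hl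
  · exact key x₁ y₁ l₁ r₁ x₂ y₂ l₂ r₂ hr₁' hr₂' he hl
  · rcases key x₂ y₂ l₂ r₂ x₁ y₁ l₁ r₁ hr₂' hr₁' he.symm hl with h | ⟨z, hz1, hz2⟩
    · exact Or.inl h.symm
    · exact Or.inr ⟨z, hz2, hz1⟩

theorem sys_confluent : Confluent sys := by
  intro u v w h₁ h₂
  have := Relation.church_rosser (r := Step sys) (fun a b c hab hac => ?_) h₁ h₂
  · obtain ⟨z, hz1, hz2⟩ := this
    exact ⟨z, hz1, hz2⟩
  · rcases diamond hab hac with h | ⟨z, hz1, hz2⟩
    · subst h
      exact ⟨b, ReflGen.refl, ReflTransGen.refl⟩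
    · exact ⟨z, ReflGen.single hz1, ReflTransGen.single hz2⟩

end Pool.Agent.H42CR
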